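import Mathlib
import Pool.Agent.D0H61.CSStar

/-!
# The preservation property: base case
-/

namespace Pool.Agent.D0H61.CSBase

universe u

set_option linter.unusedSectionVars false

open Pool.Agent.Helper539.SGIter Pool.Agent.Helper539.SGDelta Pool.Agent.D0H61.CSStep
open Pool.Agent.D0H61.CSStar
open Pool.Agent.Helper539.SGCount

variable {K : Type u} [LinearOrder K] [OrderBot K] [Reg K] [TS K]
  {J : Type u} [LinearOrder J] [WellFoundedLT J]

/-- The base case (no coordinates below `ξ`) -/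
theorem star_base (𝔸 : J → K → ℕ → Set (Om K J)) (ξ : J) (hξ : ∀ η, ¬ η < ξ) : Star 𝔸 ξ := by
  classical
  intro Y hY
  have hsm : ∀ n, ∃ A : Set (Rep K J), A ⊆ Vd (RR 𝔸) ξ ∧ Sm K A ∧
    (∀ a ∈ A, bs a ξ ⊆ Y n) ∧ ∀ q ∈ Vd (RR 𝔸) ξ, bs q ξ ⊆ Y n →
      ∃ q' ∈ Vd (RR 𝔸) ξ, q' ≤ q ∧ ∃ a ∈ A, q' ≤ a := fun n => exists_small_open (Y n)
  choose A hA1 hA2 hA3 hA4 using hsm
  have hmin : ∀ {q : Rep K J}, q ∈ Vd (RR 𝔸) ξ → ∀ η, q.st η = [] ∧ q.pr η = ∅ :=
    fun hq η => hq.2 η (not_lt.1 (hξ η))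
  let S : Set K := Set.range
    (fun p : Σ n : ℕ, Σ a : A n, {b : K // a.1.c b ≠ []} => p.2.2.1)
  have hS : Sm K S := by
    have h1 : ∀ n : ℕ, ∀ a : A n, Sm K {b : K // a.1.c b ≠ []} := by
      intro n a
      have := a.1.finc
      have : Finite {b : K // a.1.c b ≠ []} := this
      infer_instance
    infer_instance
  obtain ⟨β, hβ⟩ := exists_lt_of_small S
  refine ⟨fun _ => β, ?_⟩
  intro a _ ha q hq hInf s q' hq' hle N
  have hβa : β < a := ha.2 ⊥ ha.1
  obtain ⟨q'', hq'', h1, n, hn, h2⟩ := hInf q' hq' hle (max N (q'.c a).length)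
  obtain ⟨r, hr, h3, a0, ha0, h4⟩ := hA4 n q'' hq'' h2
  have hnN : N ≤ n := (le_max_left _ _).trans hn
  have hnl : (q'.c a).length ≤ n := (le_max_right _ _).trans hn
  have ha0c : a0.c a = [] := by
    by_contra hne
    have : a ∈ S := ⟨⟨n, ⟨a0, ha0⟩, ⟨a, hne⟩⟩, rfl⟩
    exact lt_asymm hβa (hβ a this)
  let last : Set.Iic a := if s = true then ⟨⊥, Set.mem_Iic.2 bot_le⟩ else ⟨a, Set.mem_Iic.2 le_rfl⟩
  let L0 : List (Set.Iic a) := q'.c a ++ List.replicate (n - (q'.c a).length) last
  have hL0 : L0.length = n := by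
    simp only [L0, List.length_append, List.length_replicate]
    omega
  let L : List (Set.Iic a) := L0 ++ [last]
  have hL : L.length = n + 1 := by simp [L, hL0]
  have hpre : q'.c a <+: L := by
    simp only [L, L0, List.append_assoc]
    exact List.prefix_append _ _
  let c' : (b : K) → List (Set.Iic b) := Function.update r.c a L
  have hc'a : c' a = L := Function.update_self _ _ _
  have hc'b : ∀ b, b ≠ a → c' b = r.c b := fun b hb => Function.update_of_ne hb _ _
  have hfin : {b | c' b ≠ []}.Finite := by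
    refine (r.finc.union (Set.finite_singleton a)).subset fun b hb => ?_
    by_cases hba : b = a
    · right; exact hba
    · left
      have hb' : c' b ≠ [] := hb
      rw [hc'b b hba] at hb'
      exact hb'
  let r' : Rep K J := Pool.Agent.Helper539.SGIter.base c' hfin
  have hr' : r' ∈ Vd (RR 𝔸) ξ := ⟨fun _ _ hR => absurd hR (Finset.notMem_empty _),
    fun _ _ => ⟨rfl, rfl⟩⟩
  have hrq' : r ≤ q' := h3.trans h1
  have hle1 : r' ≤ q' := by
    refine ⟨fun b => ?_, fun η => ?_⟩
    · by_cases hba : b = a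
      · subst hba
        show q'.c b <+: c' b
        rw [hc'a]; exact hpre
      · show q'.c b <+: c' b
        rw [hc'b b hba]
        exact le_c hrq' b
    · obtain ⟨e1, e2⟩ := hmin hq' η
      rw [e1, e2]
      exact ⟨List.nil_prefix, Finset.empty_subset _,
        fun R hR => absurd hR (Finset.notMem_empty R)⟩
  have hle2 : r' ≤ a0 := by
    refine ⟨fun b => ?_, fun η => ?_⟩
    · by_cases hba : b = a
      · subst hba
        rw [ha0c]; exact List.nil_prefix
      · show a0.c b <+: c' b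
        rw [hc'b b hba]
        exact le_c h4 b
    · obtain ⟨e1, e2⟩ := hmin (hA1 n ha0) η
      rw [e1, e2]
      exact ⟨List.nil_prefix, Finset.empty_subset _,
        fun R hR => absurd hR (Finset.notMem_empty R)⟩
  refine ⟨r', hr', hle1, n, hnN, ?_⟩
  intro w hw
  refine ⟨hA3 n a0 ha0 (bs_le hle2 ξ hw), ?_⟩
  have h5 : c' a = pre (w.1 a) (c' a).length := hw.1 a
  rw [hc'a, hL, pre_succ] at h5
  have h6 := List.append_inj h5 (by rw [hL0, length_pre])
  have h7 : last = w.1 a n := by simpa using h6.2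
  show ((w.1 a n : K) = ⊥) ↔ s = true
  rw [← h7]
  cases s
  · simp [last, ha.1.ne']
  · simp [last]

end Pool.Agent.D0H61.CSBase
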