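import Mathlib
import Pool.Agent.D0H61.CSMx

/-!
# The successor step: rank analysis
-/

namespace Pool.Agent.D0H61.CSClaimA

universe u

set_option linter.unusedSectionVars false

open Pool.Agent.Helper539.SGIter Pool.Agent.Helper539.SGDelta Pool.Agent.D0H61.CSStep
open Pool.Agent.D0H61.CSStar Pool.Agent.D0H61.CSMk Pool.Agent.D0H61.CSMx
open Pool.Agent.D0H61.CSReduce
open Pool.Agent.Helper539.SGCount

variable {K : Type u} [LinearOrder K] [OrderBot K] [Reg K] [TS K]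
  {J : Type u} [LinearOrder J] [WellFoundedLT J]

variable {𝔸 : J → K → ℕ → Set (Om K J)} {η ξ : J} {X : ℕ → Set (Om K J)}

/-- no extension is in the class `ZZ` or favours a large number -/
def GN (𝔸 : J → K → ℕ → Set (Om K J)) (η ξ : J) (X : ℕ → Set (Om K J)) (k : ℕ) (p : Rep K J)
    (s : List ℕ) : Prop :=
  ∀ p' ∈ BB 𝔸 η, p' ≤ p → ¬ ZZ 𝔸 η ξ X k p' s ∧ ∀ m, k ≤ m → ¬ Fav 𝔸 η ξ X p' s m

theorem GN.mono {k : ℕ} {p p' : Rep K J} {s : List ℕ} (h : GN 𝔸 η ξ X k p s) (hle : p' ≤ p) :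
    GN 𝔸 η ξ X k p' s := fun r hr hr' => h r hr (hr'.trans hle)

/-- the key step -/
theorem GN.step {k : ℕ} {p : Rep K J} {s : List ℕ} (hp : p ∈ BB 𝔸 η) (h : GN 𝔸 η ξ X k p s) :
    ∃ p1 ∈ BB 𝔸 η, p1 ≤ p ∧ ∃ (u : Finset K) (N : ℕ), ∀ x, N ≤ x → ∀ p'' ∈ BB 𝔸 η, p'' ≤ p1 →
      bs p'' η ⊆ GG (GA 𝔸 η) u x → GN 𝔸 η ξ X k p'' (s ++ [x]) := by
  classical
  have h1 : ∃ p' ∈ BB 𝔸 η, p' ≤ p ∧ ∃ (u : Finset K) (N : ℕ), ∀ p'' ∈ BB 𝔸 η, p'' ≤ p' → ∀ x,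
      N ≤ x → bs p'' η ⊆ GG (GA 𝔸 η) u x → ¬ ZZ 𝔸 η ξ X k p'' (s ++ [x]) := by
    by_contra hcon
    push Not at hcon
    exact (h p hp le_rfl).1 (ZZ.step hp hcon)
  obtain ⟨p', hp', hle', u1, N1, h1⟩ := h1
  have h2 : ¬ Pos 𝔸 η ξ X k p' s := fun hpos => (h p' hp' hle').1
    (ZZ.b2 p' s hp' (fun r hr hrle => (h r hr (hrle.trans hle')).2) hpos)
  unfold Pos at h2
  push Not at h2
  obtain ⟨p1, hp1, hle1, u2, N2, h2⟩ := h2
  refine ⟨p1, hp1, hle1.trans hle', u1 ∪ u2, max N1 N2, fun x hx p'' hp'' hle'' hsub r hr hrle =>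
    ⟨h1 r hr (hrle.trans (hle''.trans hle1)) x ((le_max_left _ _).trans hx) ?_, fun m hm =>
      h2 r hr (hrle.trans hle'') x ((le_max_right _ _).trans hx) ?_ m hm⟩⟩
  · exact fun w hw d hd => hsub (bs_le hrle η hw) d (Finset.mem_union_left _ hd)
  · exact fun w hw d hd => hsub (bs_le hrle η hw) d (Finset.mem_union_right _ hd)

/-- good triples -/
def Gd (𝔸 : J → K → ℕ → Set (Om K J)) (η ξ : J) (X : ℕ → Set (Om K J)) (k : ℕ) (s : List ℕ)
    (z : Rep K J × Finset K × ℕ) : Prop :=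
  (∀ x, z.2.2 ≤ x → ∀ p'' ∈ BB 𝔸 η, p'' ≤ z.1 → bs p'' η ⊆ GG (GA 𝔸 η) z.2.1 x →
      GN 𝔸 η ξ X k p'' (s ++ [x])) ∨
    ∀ p'' ∈ BB 𝔸 η, p'' ≤ z.1 → ¬ GN 𝔸 η ξ X k p'' s

theorem exists_phi (k : ℕ) : ∃ φ : List ℕ → Set (Rep K J × Finset K × ℕ), PhiOk (BB 𝔸 η) φ ∧
    ∀ s, ∀ z ∈ φ s, Gd 𝔸 η ξ X k s z := by
  classical
  have key : ∀ s : List ℕ, ∃ S : Set (Rep K J × Finset K × ℕ), (∀ x ∈ S, x.1 ∈ BB 𝔸 η) ∧
      Sm K S ∧ (∀ q ∈ BB 𝔸 η, ∃ x ∈ S, ∃ q' ∈ BB 𝔸 η, q' ≤ q ∧ q' ≤ x.1) ∧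
      ∀ z ∈ S, Gd 𝔸 η ξ X k s z := by
    intro s
    obtain ⟨A, hA1, hA2, hA3⟩ := exists_antichain (RR' := RR 𝔸) (ξ := η)
      {p | p ∈ BB 𝔸 η ∧ ∃ y : Finset K × ℕ, Gd 𝔸 η ξ X k s (p, y)} fun q hq => hq.1
    choose y hy using fun a : A => (hA1 a.2).2
    refine ⟨Set.range fun a : A => (a.1, y a), ?_, ?_, ?_, ?_⟩
    · rintro _ ⟨a, rfl⟩
      exact (hA1 a.2).1
    · have : Sm K A := hA2
      exact sm_range _
    · intro q hq
      have h1 : ∃ p1 ∈ BB 𝔸 η, p1 ≤ q ∧ ∃ y : Finset K × ℕ, Gd 𝔸 η ξ X k s (p1, y) := by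
        by_cases hc : ∃ p' ∈ BB 𝔸 η, p' ≤ q ∧ GN 𝔸 η ξ X k p' s
        · obtain ⟨p', hp', hle', hgn⟩ := hc
          obtain ⟨p1, hp1, hle1, u, N, h⟩ := hgn.step hp'
          exact ⟨p1, hp1, hle1.trans hle', (u, N), Or.inl h⟩
        · push Not at hc
          exact ⟨q, hq, le_rfl, (∅, 0), Or.inr hc⟩
      obtain ⟨p1, hp1, hle1, y1, hy1⟩ := h1
      obtain ⟨a, ha, r, hr, h2, h3⟩ := hA3 p1 ⟨hp1, y1, hy1⟩
      exact ⟨_, ⟨⟨a, ha⟩, rfl⟩, r, hr, h3.trans hle1, h2⟩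
    · rintro _ ⟨a, rfl⟩
      exact hy a
  choose φ h1 h2 h3 h4 using key
  exact ⟨φ, fun s => ⟨h1 s, h2 s, h3 s⟩, h4⟩

/-- Claim A: conditions forcing `X` to be infinite and not favouring large numbers have
extensions in the class `ZZ`. -/
theorem claimA (h : IsSuc η ξ) (hG : ∀ ζ, Good (RR 𝔸) ζ)
    (hop : ∀ d n, Op (BB 𝔸 η) η (GA 𝔸 η d n)) {k : ℕ} {q : Rep K J} {t : List ℕ}
    {Φ : Finset (Pr K J)} (hq : q ∈ BB 𝔸 η) (hΦ : ∀ R ∈ Φ, R ∈ RR 𝔸 η)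
    (hno : NoFav 𝔸 η ξ X k q t) (hinf : Inf (BB 𝔸 ξ) ξ X (mk η q t Φ)) :
    ∃ q' ∈ BB 𝔸 η, q' ≤ q ∧ ZZ 𝔸 η ξ X k q' t := by
  classical
  by_contra hcon
  push Not at hcon
  have hgn : GN 𝔸 η ξ X k q t := fun p' hp' hle => ⟨hcon p' hp' hle, hno p' hp' hle⟩
  obtain ⟨φ, hφ, hgd⟩ := exists_phi (𝔸 := 𝔸) (η := η) (ξ := ξ) (X := X) k
  set R : Pr K J := Rp η (GA 𝔸 η) φ with hR
  have hRmem : R ∈ RR 𝔸 η := mem_RR.2 ⟨φ, hφ, rfl⟩
  have hΦ' : ∀ R' ∈ insert R Φ, R' ∈ RR 𝔸 η := by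
    intro R' hR'
    rcases Finset.mem_insert.1 hR' with rfl | hR'
    · exact hRmem
    · exact hΦ R' hR'
  obtain ⟨r, hr, hle, m, hm, hX⟩ := hinf (mk η q t (insert R Φ)) (mk_mem h hq t hΦ')
    (mk_mono le_rfl (Finset.subset_insert _ _)) k
  have hq1 : Pool.Agent.Helper539.SGIter.res r η ∈ BB 𝔸 η := res_mem hr.1 η
  have hle1 : Pool.Agent.Helper539.SGIter.res r η ≤ q := le_mk_res hq.2 hle
  have hfav := fav_of_forces h hr hX
  have hst : t <+: r.st η := by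
    have := le_st hle η
    rwa [mk_st_self] at this
  -- all initial segments of the stem are in the class
  have claim : ∀ n : ℕ, t.length + n ≤ (r.st η).length →
      GN 𝔸 η ξ X k (Pool.Agent.Helper539.SGIter.res r η) ((r.st η).take (t.length + n)) := by
    intro n
    induction n with
    | zero =>
      intro _
      have h1 : (r.st η).take (t.length + 0) = t := by
        obtain ⟨v, hv⟩ := hst
        rw [← hv]
        simp
      rw [h1]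
      exact hgn.mono hle1
    | succ n ih =>
      intro hn
      have hlt : t.length + n < (r.st η).length := by omega
      have IH := ih hlt.le
      set v := (r.st η).take (t.length + n) with hv
      set x := (r.st η)[t.length + n] with hx
      have h1 : (r.st η).take (t.length + (n + 1)) = v ++ [x] := by
        rw [← Nat.add_assoc, List.take_succ_eq_append_getElem hlt]
      have hpre : v ++ [x] <+: r.st η := by
        rw [← h1]
        exact List.take_prefix _ _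
      have hvlen : t.length ≤ v.length := by
        rw [hv, List.length_take]
        omega
      have h2 : bs r η ⊆ R v x := by
        refine le_new hle (η := η) ?_ hpre ?_
        · rw [mk_pr_self]
          exact Finset.mem_insert_self _ _
        · rw [mk_st_self]
          exact hvlen
      rw [h1]
      intro p' hp' hle'
      -- a stronger condition in the class
      have h3 : ∃ p'' ∈ BB 𝔸 η, p'' ≤ p' ∧ GN 𝔸 η ξ X k p'' (v ++ [x]) := by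
        obtain ⟨w, hw⟩ := bs_nonempty (fun ζ _ => hG ζ) hp'
        have hw1 : w ∈ bs r η := by
          have := bs_le hle' η (hw η)
          rwa [bs_res le_rfl] at this
        obtain ⟨z, hz, hz1, hz2, hz3⟩ := h2 hw1
        obtain ⟨p2, hp2, h4, h5, h6⟩ := Op_exists_le (fun ζ _ => hG ζ)
          (Op_GG (fun ζ _ => hG ζ) hop z.2.1 x) hp' (hw η) hz3
        obtain ⟨p3, hp3, h7, h8, _⟩ := compat_of_point (fun ζ _ => hG ζ) hp2
          ((hφ v).1 z hz) h5 hz1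
        refine ⟨p3, hp3, h7.trans h4, ?_⟩
        rcases hgd v z hz with h9 | h9
        · exact h9 x hz2 p3 hp3 h8 ((bs_le h7 η).trans h6)
        · exact absurd (IH.mono (h7.trans (h4.trans hle'))) (h9 p3 hp3 h8)
      obtain ⟨p'', hp'', hle'', hgn''⟩ := h3
      have h10 := hgn'' p'' hp'' le_rfl
      exact ⟨fun hz => h10.1 (hz.mono hp'' hle''), fun m hm hf => h10.2 m hm (hf.mono hle'')⟩
  obtain ⟨n, hn⟩ : ∃ n, (r.st η).length = t.length + n :=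
    Nat.exists_eq_add_of_le hst.length_le
  have h1 := claim n hn.ge
  rw [← hn, List.take_length] at h1
  exact (h1 (Pool.Agent.Helper539.SGIter.res r η) hq1 le_rfl).2 m hm hfav

end Pool.Agent.D0H61.CSClaimA
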