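import Mathlib
import Pool.Agent.Helper539.SPForcing

/-!
# Club-splitting sequences and `ω`-splitting families in the forcing language
-/

namespace Pool.Agent.D0H61.CSDefs

open Pool.Agent.Helper539.SPForcing

universe u v w

section

variable {P : Type u} [Preorder P]

/-- The named subset `C` of the well-ordered set `X` is closed and unbounded in `X`: for every
`b` it has an element above `b`, and it contains every `a` such that there is some `b < a` and
such that for all `b < a` there is `c ∈ C` with `b < c < a`. -/
def IsClub {X : Type v} [LinearOrder X] (C : X → Set P) : Set P :=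
  fand (fall fun b : X => fex fun c : X => fand (fground (b < c)) (meets (C c)))
    (fall fun a : X => fimp
      (fand (fground (∃ b, b < a))
        (fall fun b : X => fimp (fground (b < a))
          (fex fun c : X => fand (fground (b < c ∧ c < a)) (meets (C c)))))
      (meets (C a)))

/-- In the extension there is a club-splitting sequence indexed by the well-ordered set `X`: a
sequence of infinite sets of natural numbers such that for every infinite set `b` of natural
numbers the set of all indices `a` such that `A a` splits `b` contains a closed unbounded
subset of `X`. -/
def HasClubSplittingSequence (P : Type u) [Preorder P] (X : Type v) [LinearOrder X] : Set P :=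
  fex fun A : X → ℕ → Set P =>
    fand (fall fun a => InfSet (A a))
      (fall fun b : ℕ → Set P => fimp (InfSet b)
        (fex fun C : X → Set P => fand (IsClub C)
          (fall fun a : X => fimp (meets (C a)) (FSplits (A a) b))))

/-- In the extension there is a family `S` of sets of natural numbers, indexed by `Y`, such that
for every sequence of infinite sets of natural numbers some member of the family splits all the
sets in the sequence. -/
def HasOmegaSplittingFamily (P : Type u) [Preorder P] (Y : Type v) : Set P :=
  fex fun S : Y → ℕ → Set P =>
    fall fun x : ℕ → ℕ → Set P => fimp (fall fun n => InfSet (x n))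
      (fex fun y => fall fun n => FSplits (S y) (x n))

theorem down_IsClub {X : Type v} [LinearOrder X] (C : X → Set P) : Down (IsClub C) :=
  down_fand (down_fall fun _ => down_fex _) (down_fall fun _ => down_fimp _ _)

/-- an `ω`-splitting family is splitting -/
theorem splitting_of_omega {Y : Type v} {p : P} (h : p ∈ HasOmegaSplittingFamily P Y) :
    p ∈ HasSplittingFamily P Y := by
  refine mem_fex.2 fun q hq => ?_
  obtain ⟨r, hr, S, hS⟩ := mem_fex.1 h q hq
  refine ⟨r, hr, S, fun x => mem_fimp.2 fun s hs hx => ?_⟩
  obtain ⟨t, ht, h1⟩ := mem_fimp.1 (hS fun _ => x) s hs fun _ => hx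
  refine ⟨t, ht, mem_fex.2 fun q1 hq1 => ?_⟩
  obtain ⟨q2, hq2, y, hy⟩ := mem_fex.1 h1 q1 hq1
  exact ⟨q2, hq2, y, hy 0⟩

end

end Pool.Agent.D0H61.CSDefs
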