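import Mathlib
import Pool.Agent.D0H61.CSStep

/-!
# The forcing notion: initial segments of the iteration

A condition consists of a stage `α < κ⁺`, a sequence of names `𝔸` (only the part below `α`
matters) and of a condition of the iteration of length `α` given by these names.
-/

namespace Pool.Agent.D0H61.CSTop

universe u

set_option linter.unusedSectionVars false

open Pool.Agent.Helper539.SGIter Pool.Agent.Helper539.SGDelta Pool.Agent.D0H61.CSStep
open Pool.Agent.Helper539.SGCount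

variable {K : Type u} [LinearOrder K] [OrderBot K] [Reg K] [TS K]
  {J : Type u} [LinearOrder J] [WellFoundedLT J]

/-- sequences of names -/
abbrev Sq (K : Type u) [LinearOrder K] (J : Type u) : Type u := J → K → ℕ → Set (Om K J)

omit [WellFoundedLT J] in
theorem Vd_congr {R R' : J → Set (Pr K J)} {ξ : J} (h : ∀ ζ < ξ, R ζ = R' ζ) :
    Vd R ξ = Vd R' ξ := by
  have key : ∀ {R R' : J → Set (Pr K J)}, (∀ ζ < ξ, R ζ = R' ζ) → Vd R ξ ⊆ Vd R' ξ := by
    intro R R' h r hr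
    refine ⟨fun η P hP => ?_, hr.2⟩
    by_cases hη : η < ξ
    · rw [← h η hη]
      exact hr.1 η P hP
    · rw [(hr.2 η (not_lt.1 hη)).2] at hP
      exact absurd hP (Finset.notMem_empty P)
  exact Set.Subset.antisymm (key h) (key fun ζ hζ => (h ζ hζ).symm)

/-- the promises at stage `ξ` only depend on the names up to `ξ` -/
theorem RR_congr {𝔸 𝔸' : Sq K J} {ξ : J} (h : ∀ ζ ≤ ξ, 𝔸 ζ = 𝔸' ζ) : RR 𝔸 ξ = RR 𝔸' ξ := by
  induction ξ using WellFoundedLT.induction with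
  | ind ξ IH =>
    rw [RR_eq, RR_eq, h ξ le_rfl, Vd_congr fun ζ hζ => IH ζ hζ fun ζ' h' => h ζ' (h'.trans hζ.le)]

theorem BB_congr {𝔸 𝔸' : Sq K J} {α : J} (h : ∀ ζ < α, 𝔸 ζ = 𝔸' ζ) : BB 𝔸 α = BB 𝔸' α :=
  Vd_congr fun _ hζ => RR_congr fun ζ' h' => h ζ' (h'.trans_lt hζ)

/-- the conditions -/
structure TT (K : Type u) [LinearOrder K] [OrderBot K] [TS K] (J : Type u) [LinearOrder J]
    [WellFoundedLT J] : Type u where
  /-- the length of the iteration -/
  α : J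
  /-- the names used in the iteration -/
  𝔸 : Sq K J
  /-- the condition of the iteration -/
  p : Rep K J
  mem : p ∈ BB 𝔸 α

/-- `b'` is an end-extension of `b` -/
def Ext (b b' : J × Sq K J) : Prop := b.1 ≤ b'.1 ∧ ∀ ζ < b.1, b.2 ζ = b'.2 ζ

omit [WellFoundedLT J] in
theorem Ext.refl (b : J × Sq K J) : Ext b b := ⟨le_rfl, fun _ _ => rfl⟩

omit [WellFoundedLT J] in
theorem Ext.trans {b b' b'' : J × Sq K J} (h : Ext b b') (h' : Ext b' b'') : Ext b b'' :=
  ⟨h.1.trans h'.1, fun ζ hζ => (h.2 ζ hζ).trans (h'.2 ζ (hζ.trans_le h.1))⟩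

theorem Ext.mem {b b' : J × Sq K J} (h : Ext b b') {p : Rep K J} (hp : p ∈ BB b.2 b.1) :
    p ∈ BB b'.2 b'.1 := by
  rw [BB_congr h.2] at hp
  exact Vd_mono h.1 hp

theorem Ext.res_mem {b b' : J × Sq K J} (h : Ext b b') {p : Rep K J} (hp : p ∈ BB b'.2 b'.1) :
    res p b.1 ∈ BB b.2 b.1 := by
  rw [BB_congr h.2]
  exact Pool.Agent.Helper539.SGIter.res_mem hp.1 b.1

/-- the pair of the stage and of the names -/
def TT.b (t : TT K J) : J × Sq K J := (t.α, t.𝔸)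

instance : Preorder (TT K J) where
  le t' t := Ext t.b t'.b ∧ t'.p ≤ t.p
  le_refl t := ⟨Ext.refl _, le_rfl⟩
  le_trans a b c hab hbc := ⟨hbc.1.trans hab.1, hab.2.trans hbc.2⟩

theorem TT.le_def {t' t : TT K J} : t' ≤ t ↔ Ext t.b t'.b ∧ t'.p ≤ t.p := Iff.rfl

/-- the condition given by a pair and a condition of the iteration -/
def tt (b : J × Sq K J) (p : Rep K J) (h : p ∈ BB b.2 b.1) : TT K J := ⟨b.1, b.2, p, h⟩

@[simp] theorem tt_b (b : J × Sq K J) (p : Rep K J) (h : p ∈ BB b.2 b.1) : (tt b p h).b = b := rfl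
@[simp] theorem tt_p (b : J × Sq K J) (p : Rep K J) (h : p ∈ BB b.2 b.1) : (tt b p h).p = p := rfl

theorem eq_tt (t : TT K J) : t = tt t.b t.p t.mem := rfl

theorem tt_le {b b' : J × Sq K J} (hb : Ext b b') {p p' : Rep K J} {h : p ∈ BB b.2 b.1}
    {h' : p' ∈ BB b'.2 b'.1} (hp : p' ≤ p) : tt b' p' h' ≤ tt b p h := ⟨hb, hp⟩

/-- the restriction of a condition to a shorter iteration -/
noncomputable def TT.res (t : TT K J) (b : J × Sq K J) (h : Ext b t.b) : TT K J :=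
  tt b (Pool.Agent.Helper539.SGIter.res t.p b.1) (h.res_mem t.mem)

/-- amalgamation of a condition with a condition of a shorter iteration -/
theorem exists_amal {b : J × Sq K J} {t : TT K J} (h : Ext b t.b) {q : Rep K J} (hq : q ∈ BB b.2 b.1)
    (hle : q ≤ Pool.Agent.Helper539.SGIter.res t.p b.1) : ∃ t' : TT K J, t' ≤ t ∧ t' ≤ tt b q hq ∧ t'.b = t.b ∧
      t'.p = glue q t.p b.1 := by
  have hq' : q ∈ BB t.𝔸 b.1 := by
    rw [BB_congr h.2] at hq
    exact hq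
  refine ⟨tt t.b (glue q t.p b.1) (glue_mem hq' t.mem h.1), ⟨Ext.refl _, glue_le hle⟩,
    ⟨h, glue_le_left hq.2⟩, rfl, rfl⟩

/-! ### Long sequences -/

omit [WellFoundedLT J] in
/-- chains of at most `κ` many pairs have upper bounds -/
theorem exists_ub (hcof : ∀ S : Set J, LeK K S → ∃ b, ∀ s ∈ S, s < b) (C : Set (J × Sq K J))
    (hC : LeK K C) (hch : ∀ b ∈ C, ∀ b' ∈ C, Ext b b' ∨ Ext b' b) :
    ∃ b, ∀ c ∈ C, Ext c b := by
  classical
  obtain ⟨β, hβ⟩ := hcof (Prod.fst '' C) (hC.of_surj (fun c => ⟨c.1.1, ⟨c.1, c.2, rfl⟩⟩) (by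
    rintro ⟨_, c, hc, rfl⟩
    exact ⟨⟨c, hc⟩, rfl⟩))
  refine ⟨(β, fun ζ => if h : ∃ c ∈ C, ζ < c.1 then h.choose.2 ζ else fun _ _ => ∅),
    fun c hc => ⟨(hβ _ ⟨c, hc, rfl⟩).le, fun ζ hζ => ?_⟩⟩
  have hex : ∃ c ∈ C, ζ < c.1 := ⟨c, hc, hζ⟩
  show c.2 ζ = if h : ∃ c ∈ C, ζ < c.1 then h.choose.2 ζ else fun _ _ => ∅
  rw [dif_pos hex]
  obtain ⟨h1, h2⟩ := hex.choose_spec
  rcases hch c hc _ h1 with h | h
  · exact h.2 ζ hζ
  · exact (h.2 ζ h2).symm

/-- recursion of length `κ` -/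
theorem exists_all {T : Type u} {E : T → T → Prop} (hrefl : ∀ t, E t t)
    (htrans : ∀ {a b c}, E a b → E b c → E a c)
    (hub : ∀ C : Set T, LeK K C → (∀ b ∈ C, ∀ b' ∈ C, E b b' ∨ E b' b) → ∃ b, ∀ c ∈ C, E c b)
    {I : Type u} (hI : LeK K I) (H : I → T → Prop) (t0 : T)
    (hd : ∀ i t, E t0 t → ∃ t', E t t' ∧ H i t') (ho : ∀ i t t', E t t' → H i t → H i t') : ∃ t, E t0 t ∧ ∀ i, H i t := by
  classical
  obtain ⟨e⟩ := hI
  -- the requirement number `k`
  let Q : K → T → Prop := fun k t => ∀ i, e i = k → H i t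
  have hQd : ∀ k t, E t0 t → ∃ t', E t t' ∧ Q k t' := by
    intro k t ht
    by_cases hk : ∃ i, e i = k
    · obtain ⟨i, hi⟩ := hk
      obtain ⟨t', h1, h2⟩ := hd i t ht
      refine ⟨t', h1, fun i' hi' => ?_⟩
      have : i' = i := e.injective (hi'.trans hi.symm)
      rw [this]; exact h2
    · exact ⟨t, hrefl t, fun i hi => absurd ⟨i, hi⟩ hk⟩
  let F : (k : K) → ((j : K) → j < k → T) → T := fun k f =>
    if h : ∃ b, (∀ j (hj : j < k), E (f j hj) b) ∧ E t0 b ∧ Q k b then h.choose else t0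
  let g : K → T := WellFoundedLT.fix (motive := fun _ : K => T) F
  have hg : ∀ k, g k = F k fun j _ => g j := fun k => WellFoundedLT.fix_eq _ k
  have key : ∀ k, (∀ j < k, E (g j) (g k)) ∧ E t0 (g k) ∧ Q k (g k) := by
    intro k
    induction k using WellFoundedLT.induction with
    | ind k IH =>
      have hex : ∃ b, (∀ j, j < k → E (g j) b) ∧ E t0 b ∧ Q k b := by
        obtain ⟨b, hb⟩ := hub (insert t0 (g '' Set.Iio k)) (by
            have h1 : Sm K (Set.Iio k) := sm_Iio k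
            have h2 : Sm K (g '' Set.Iio k) := sm_image g (Set.Iio k)
            have h3 : Sm K (insert t0 (g '' Set.Iio k) : Set T) := by
              rw [Set.insert_eq]
              exact sm_union _ _
            exact LeK.of_small h3) (by
          have hc : ∀ i < k, ∀ j < k, E (g i) (g j) ∨ E (g j) (g i) := by
            intro i hi j hj
            rcases lt_trichotomy i j with h | rfl | h
            · exact Or.inl ((IH j hj).1 i h)
            · exact Or.inl (hrefl _)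
            · exact Or.inr ((IH i hi).1 j h)
          rintro b (rfl | ⟨i, hi, rfl⟩) b' (rfl | ⟨j, hj, rfl⟩)
          · exact Or.inl (hrefl _)
          · exact Or.inl (IH j hj).2.1
          · exact Or.inr (IH i hi).2.1
          · exact hc i hi j hj)
        obtain ⟨b', h1, h2⟩ := hQd k b (hb _ (Or.inl rfl))
        exact ⟨b', fun j hj => htrans (hb _ (Or.inr ⟨j, hj, rfl⟩)) h1,
          htrans (hb _ (Or.inl rfl)) h1, h2⟩
      have h1 : g k = hex.choose := by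
        rw [hg]
        exact dif_pos hex
      rw [h1]
      exact hex.choose_spec
  obtain ⟨b, hb⟩ := hub (Set.range g) (by
      exact leK_K.of_surj (Set.rangeFactorization g) Set.rangeFactorization_surjective) (by
    rintro _ ⟨i, rfl⟩ _ ⟨j, rfl⟩
    rcases lt_trichotomy i j with h | rfl | h
    · exact Or.inl ((key j).1 i h)
    · exact Or.inl (hrefl _)
    · exact Or.inr ((key i).1 j h))
  refine ⟨b, htrans (key ⊥).2.1 (hb _ ⟨⊥, rfl⟩), fun i => ?_⟩
  exact ho i (g (e i)) b (hb _ ⟨e i, rfl⟩) ((key (e i)).2.2 i rfl)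

/-- one step: every condition of the given length has an extension in each of the dense sets -/
theorem exists_step (hK : ∀ (𝔸 : Sq K J) (ξ : J), LeK K (BB 𝔸 ξ))
    (hcof : ∀ S : Set J, LeK K S → ∃ b, ∀ s ∈ S, s < b) {Y : Type u} (hY : LeK K Y)
    (𝒟 : Y → Set (TT K J)) (hd : ∀ y t, ∃ t' ≤ t, t' ∈ 𝒟 y)
    (ho : ∀ y, ∀ t ∈ 𝒟 y, ∀ t' ≤ t, t' ∈ 𝒟 y) (b : J × Sq K J) :
    ∃ b', Ext b b' ∧ ∀ y, ∀ p ∈ BB b.2 b.1, ∃ p', p' ≤ p ∧ ∃ h : p' ∈ BB b'.2 b'.1,
      tt b' p' h ∈ 𝒟 y := by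
  obtain ⟨b', h1, h2⟩ := exists_all (T := J × Sq K J) (E := Ext) Ext.refl
    (fun h h' => h.trans h') (exists_ub hcof) (hY.prod (hK b.2 b.1))
    (fun x b' => ∃ p', p' ≤ x.2.1 ∧ ∃ h : p' ∈ BB b'.2 b'.1, tt b' p' h ∈ 𝒟 x.1) b
    (by
      rintro ⟨y, p⟩ b' hb'
      obtain ⟨t', h1, h2⟩ := hd y (tt b' p.1 (hb'.mem p.2))
      exact ⟨t'.b, h1.1, t'.p, h1.2, t'.mem, h2⟩)
    (by
      rintro ⟨y, p⟩ b' b'' hb ⟨p', h1, h2, h3⟩
      exact ⟨p', h1, hb.mem h2, ho y _ h3 _ (tt_le hb le_rfl)⟩)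
  exact ⟨b', h1, fun y p hp => h2 (y, ⟨p, hp⟩)⟩

/-- Reduction to a fixed stage: below a suitable stage, the conditions of this stage in each of
the dense sets are dense. -/
theorem exists_stage (hK : ∀ (𝔸 : Sq K J) (ξ : J), LeK K (BB 𝔸 ξ))
    (hcof : ∀ S : Set J, LeK K S → ∃ b, ∀ s ∈ S, s < b) {Y : Type u} (hY : LeK K Y)
    (𝒟 : Y → Set (TT K J)) (hd : ∀ y t, ∃ t' ≤ t, t' ∈ 𝒟 y)
    (ho : ∀ y, ∀ t ∈ 𝒟 y, ∀ t' ≤ t, t' ∈ 𝒟 y) (b : J × Sq K J) :
    ∃ b', Ext b b' ∧ ∀ y, ∀ p ∈ BB b'.2 b'.1, ∃ p', p' ≤ p ∧ ∃ h : p' ∈ BB b'.2 b'.1,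
      tt b' p' h ∈ 𝒟 y := by
  classical
  choose f hf1 hf2 using exists_step hK hcof hY 𝒟 hd ho
  let s : ℕ → J × Sq K J := fun n => Nat.rec b (fun _ c => f c) n
  have hs : ∀ n, Ext (s n) (s (n + 1)) := fun n => hf1 (s n)
  have hmono : ∀ {m n}, m ≤ n → Ext (s m) (s n) := by
    intro m n h
    induction n, h using Nat.le_induction with
    | base => exact Ext.refl _
    | succ n _ ih => exact ih.trans (hs n)
  obtain ⟨c, hc⟩ := exists_ub hcof (Set.range s) (LeK.of_small inferInstance) (by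
    rintro _ ⟨m, rfl⟩ _ ⟨n, rfl⟩
    rcases le_total m n with h | h
    · exact Or.inl (hmono h)
    · exact Or.inr (hmono h))
  -- the supremum of the lengths
  obtain ⟨β, hβ, hmin⟩ := WellFounded.has_min (wellFounded_lt (α := J)) {β | ∀ n, (s n).1 ≤ β}
    ⟨c.1, fun n => (hc _ ⟨n, rfl⟩).1⟩
  have hext : ∀ n, Ext (s n) (β, c.2) := fun n => ⟨hβ n, (hc _ ⟨n, rfl⟩).2⟩
  refine ⟨(β, c.2), hext 0, fun y p hp => ?_⟩
  -- `p` is already a condition of some smaller stage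
  have hn : ∃ n, ∀ ζ ∈ supp p, ζ < (s n).1 := by
    have key : ∀ S : Set J, S.Finite → (∀ ζ ∈ S, ζ < β) → ∃ n, ∀ ζ ∈ S, ζ < (s n).1 := by
      intro S hS
      induction S, hS using Set.Finite.induction_on with
      | empty => exact fun _ => ⟨0, by simp⟩
      | @insert a S _ _ ih =>
        intro h
        obtain ⟨n, hn⟩ := ih fun ζ hζ => h ζ (Set.mem_insert_of_mem a hζ)
        obtain ⟨m, hm⟩ : ∃ m, a < (s m).1 := by
          by_contra hcon
          push Not at hcon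
          exact hmin a hcon (h a (Set.mem_insert a S))
        refine ⟨max m n, fun ζ hζ => ?_⟩
        rcases Set.mem_insert_iff.1 hζ with rfl | hζ
        · exact hm.trans_le (hmono (le_max_left _ _)).1
        · exact (hn ζ hζ).trans_le (hmono (le_max_right _ _)).1
    refine key (supp p) p.fin fun ζ hζ => ?_
    by_contra h
    obtain ⟨h1, h2⟩ := hp.2 ζ (not_lt.1 h)
    rcases hζ with h | h
    · exact h h1
    · exact h h2
  obtain ⟨n, hn⟩ := hn
  have hp' : p ∈ BB (s n).2 (s n).1 := by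
    rw [BB_congr (hext n).2]
    exact ⟨hp.1, fun ζ hζ => notMem_supp fun h => absurd (hn ζ h) (not_lt.2 hζ)⟩
  obtain ⟨p', h1, h2, h3⟩ := hf2 (s n) y p hp'
  exact ⟨p', h1, (hext (n + 1)).mem h2, ho y _ h3 _ (tt_le (hext (n + 1)) le_rfl)⟩

end Pool.Agent.D0H61.CSTop
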