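import Mathlib
import Pool.Agent.D0H61.CSTop
import Pool.Agent.Helper539.SPForcing

/-!
# Statements decided at some stage of the iteration
-/

namespace Pool.Agent.D0H61.CSLevel

universe u

set_option linter.unusedSectionVars false

open Pool.Agent.Helper539.SGIter Pool.Agent.Helper539.SGDelta Pool.Agent.D0H61.CSStep
open Pool.Agent.D0H61.CSTop Pool.Agent.Helper539.SPForcing
open Pool.Agent.Helper539.SGCount

variable {K : Type u} [LinearOrder K] [OrderBot K] [Reg K] [TS K]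
  {J : Type u} [LinearOrder J] [WellFoundedLT J]

/-- the open set of points given by the conditions of stage `b` in `φ` -/
def Lv (b : J × Sq K J) (φ : Set (TT K J)) : Set (Om K J) :=
  ⋃ q ∈ {q : Rep K J | ∃ h : q ∈ BB b.2 b.1, tt b q h ∈ φ}, bs q b.1

theorem Op_Lv (b : J × Sq K J) (φ : Set (TT K J)) : Op (BB b.2 b.1) b.1 (Lv b φ) :=
  Op_iUnion fun _ => Op_iUnion fun hq => Op_bs hq.choose

theorem mem_Lv {b : J × Sq K J} {φ : Set (TT K J)} {w : Om K J} : w ∈ Lv b φ ↔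
    ∃ q, ∃ h : q ∈ BB b.2 b.1, tt b q h ∈ φ ∧ w ∈ bs q b.1 := by
  simp only [Lv, Set.mem_iUnion, Set.mem_ofPred_eq, exists_prop]
  constructor
  · rintro ⟨q, ⟨h, h1⟩, h2⟩
    exact ⟨q, h, h1, h2⟩
  · rintro ⟨q, h, h1, h2⟩
    exact ⟨q, ⟨h, h1⟩, h2⟩

theorem bs_sub_Lv {b : J × Sq K J} {φ : Set (TT K J)} {q : Rep K J} (h : q ∈ BB b.2 b.1)
    (hq : tt b q h ∈ φ) : bs q b.1 ⊆ Lv b φ :=
  fun _ hw => mem_Lv.2 ⟨q, h, hq, hw⟩

/-- sets of conditions which are regular open -/
structure Local {P : Type u} [Preorder P] (φ : Set P) : Prop where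
  down : Down φ
  dense : ∀ p, (∀ q ≤ p, ∃ r ≤ q, r ∈ φ) → p ∈ φ

theorem local_meets {P : Type u} [Preorder P] (N : Set P) : Local (meets N) :=
  ⟨down_meets N, fun _ h => meets_of_dense h⟩

theorem local_fnot {P : Type u} [Preorder P] {φ : Set P} (hφ : Down φ) : Local (fnot φ) :=
  ⟨down_fnot φ, fun _ h q hq hqφ => by
    obtain ⟨r, hr, h'⟩ := h q hq
    exact h' r le_rfl (hφ q hqφ r hr)⟩

/-- a condition all of whose points are in the open set forces the statement -/
theorem force_of_sub (hG : ∀ (𝔸 : Sq K J) (ζ : J), Good (RR 𝔸) ζ) {φ : Set (TT K J)} (hφ : Local φ)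
    {b : J × Sq K J} {t : TT K J} (h : Ext b t.b) (hs : bs t.p b.1 ⊆ Lv b φ) : t ∈ φ := by
  refine hφ.dense t fun t' ht' => ?_
  have h' : Ext b t'.b := h.trans ht'.1
  obtain ⟨w, hw⟩ := bs_nonempty (fun ζ _ => hG t'.𝔸 ζ) t'.mem
  obtain ⟨q, hq, h1, h2⟩ := mem_Lv.1 (hs (bs_le ht'.2 b.1 (hw b.1)))
  obtain ⟨q2, hq2, h3, h4, _⟩ := compat_of_point (fun ζ _ => hG b.2 ζ) (h'.res_mem t'.mem) hq
    (by rw [bs_res le_rfl]; exact hw b.1) h2
  obtain ⟨t'', h5, h6, _⟩ := exists_amal h' hq2 h3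
  exact ⟨t'', h5, hφ.down _ h1 _ (h6.trans (tt_le (Ext.refl b) h4))⟩

/-- the statement is decided by the conditions of stage `b` -/
def Dcd (b : J × Sq K J) (φ : Set (TT K J)) : Prop :=
  ∀ p ∈ BB b.2 b.1, ∃ p', p' ≤ p ∧ ∃ h : p' ∈ BB b.2 b.1, tt b p' h ∈ φ ∨ tt b p' h ∈ fnot φ

/-- if `t` forces a statement decided at stage `b` then some condition of this stage compatible
with `t` forces it -/
theorem exists_of_force {φ : Set (TT K J)} (hφ : Down φ) {b : J × Sq K J} (hd : Dcd b φ) {t : TT K J}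
    (h : Ext b t.b) (ht : t ∈ φ) :
    ∃ q, q ≤ Pool.Agent.Helper539.SGIter.res t.p b.1 ∧ ∃ hq : q ∈ BB b.2 b.1, tt b q hq ∈ φ := by
  obtain ⟨q, h1, hq, h2 | h2⟩ := hd _ (h.res_mem t.mem)
  · exact ⟨q, h1, hq, h2⟩
  · obtain ⟨t', h3, h4, _⟩ := exists_amal h hq h1
    exact absurd (hφ _ ht _ h3) (h2 _ h4)

/-- the collapsing part: lengthening the approximation of the map onto `[0, a]` -/
noncomputable def pushc (r : Rep K J) (a : K) (l : List (Set.Iic a)) : Rep K J where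
  c := Function.update r.c a (r.c a ++ l)
  st := r.st
  pr := r.pr
  finc := by
    refine (r.finc.union (Set.finite_singleton a)).subset fun b hb => ?_
    by_cases h : b = a
    · right; exact h
    · left; simpa [Function.update_of_ne h] using hb
  fin := r.fin

omit [WellFoundedLT J] in
theorem pushc_self (r : Rep K J) (a : K) (l : List (Set.Iic a)) :
    (pushc r a l).c a = r.c a ++ l := by simp [pushc]

omit [WellFoundedLT J] in
theorem pushc_le (r : Rep K J) (a : K) (l : List (Set.Iic a)) : pushc r a l ≤ r := by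
  refine ⟨fun b => ?_, fun η => ⟨List.prefix_refl _, Finset.Subset.refl _,
    fun _ _ _ _ h h' => (no_new h h').elim⟩⟩
  by_cases h : b = a
  · subst h
    rw [pushc_self]
    exact List.prefix_append _ _
  · have : (pushc r a l).c b = r.c b := by simp [pushc, Function.update_of_ne h]
    rw [this]

omit [WellFoundedLT J] in
theorem pushc_mem {R : J → Set (Pr K J)} {ξ : J} {r : Rep K J} (hr : r ∈ Vd R ξ) (a : K)
    (l : List (Set.Iic a)) : pushc r a l ∈ Vd R ξ := hr

/-- extending the approximation of the map onto `[0, a]` -/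
theorem exists_pushc (t : TT K J) (a : K) (l : List (Set.Iic a)) :
    ∃ t' ≤ t, t'.p.c a = t.p.c a ++ l :=
  ⟨tt t.b (pushc t.p a l) (pushc_mem t.mem a l), ⟨Ext.refl _, pushc_le _ _ _⟩, pushc_self _ _ _⟩

/-- the name of the generic map from `ℕ` onto `[0, a]` -/
def Rg (a : K) (n : ℕ) (y : Set.Iic a) : Set (TT K J) := {t | (t.p.c a)[n]? = some y}

omit [LinearOrder J] [WellFoundedLT J] in
theorem getElem?_of_prefix {α : Type*} {l l' : List α} (h : l <+: l') {n : ℕ} {y : α}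
    (hy : l[n]? = some y) : l'[n]? = some y := by
  obtain ⟨k, rfl⟩ := h
  rw [List.getElem?_append_left]
  · exact hy
  · by_contra hcon
    rw [List.getElem?_eq_none (not_lt.1 hcon)] at hy
    exact absurd hy (by simp)

theorem down_Rg (a : K) (n : ℕ) (y : Set.Iic a) : Down (Rg (J := J) a n y) :=
  fun _ ht _ ht' => getElem?_of_prefix (le_c ht'.2 a) ht

/-- every initial segment of `κ` is countable in the extension -/
theorem countable_Iic (a : K) (t0 : TT K J) :
    t0 ∈ fex fun R : ℕ → Set.Iic a → Set (TT K J) => fand (IsFun R) (IsOnto R) := by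
  refine mem_fex_of_mem (Rg a) (down_fand (down_IsFun _) (down_IsOnto _)) ⟨⟨fun n => ?_,
    fun n y y' => ?_⟩, fun y => ?_⟩
  · refine mem_fex.2 fun t _ => ?_
    obtain ⟨t', ht', h⟩ := exists_pushc t a (List.replicate (n + 1) ⟨⊥, Set.mem_Iic.2 bot_le⟩)
    have hlen : n < (t'.p.c a).length := by
      rw [h, List.length_append, List.length_replicate]
      omega
    exact ⟨t', ht', (t'.p.c a)[n], meets_of_mem (List.getElem?_eq_getElem hlen)⟩
  · refine mem_fimp.2 fun t _ h => ?_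
    obtain ⟨t1, h1, h2⟩ := exists_of_meets (down_Rg a n y) h.1
    obtain ⟨t2, h3, h4⟩ := exists_of_meets (down_Rg a n y') (down_meets _ _ h.2 t1 h1)
    have h5 : (t2.p.c a)[n]? = some y := down_Rg a n y _ h2 _ h3
    have h6 : (t2.p.c a)[n]? = some y' := h4
    rw [h5] at h6
    exact ⟨t2, h3.trans h1, Option.some_injective _ h6⟩
  · refine mem_fex.2 fun t _ => ?_
    obtain ⟨t', ht', h⟩ := exists_pushc t a [y]
    refine ⟨t', ht', (t.p.c a).length, meets_of_mem ?_⟩
    show (t'.p.c a)[(t.p.c a).length]? = some y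
    rw [h]
    simp

/-- the name of the set `S_a` of the zeros of the generic map onto `[0, a]` -/
def Sz (a : K) (n : ℕ) : Set (TT K J) := Rg a n ⟨⊥, Set.mem_Iic.2 bot_le⟩

/-- relation between the value of a point and the approximation -/
theorem val_of_mem {r : Rep K J} {ξ : J} {w : Om K J} (hw : w ∈ bs r ξ) {a : K} {n : ℕ}
    {y : Set.Iic a} (h : (r.c a)[n]? = some y) : w.1 a n = y := by
  have h1 := hw.1 a
  have hlen : n < (r.c a).length := by
    by_contra hcon
    rw [List.getElem?_eq_none (not_lt.1 hcon)] at h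
    exact absurd h (by simp)
  rw [h1] at h
  simp only [pre, List.getElem?_map, List.getElem?_range hlen, Option.map_some] at h
  exact Option.some_injective _ h

theorem meets_Sz (hG : ∀ (𝔸 : Sq K J) (ζ : J), Good (RR 𝔸) ζ) {t : TT K J} {ξ : J} {a : K} {n : ℕ}
    (h : bs t.p ξ ⊆ Ss a true n) : t ∈ meets (Sz a n) := by
  refine meets_of_dense fun t1 ht1 => ?_
  obtain ⟨t', ht', h'⟩ := exists_pushc t1 a (List.replicate (n + 1) ⟨⊥, Set.mem_Iic.2 bot_le⟩)
  have hlen : n < (t'.p.c a).length := by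
    rw [h', List.length_append, List.length_replicate]
    omega
  refine ⟨t', ht', meets_of_mem ?_⟩
  have h1 : (t'.p.c a)[n]? = some (t'.p.c a)[n] := List.getElem?_eq_getElem hlen
  obtain ⟨w, hw⟩ := bs_nonempty (fun ζ _ => hG t'.𝔸 ζ) t'.mem
  have h2 : w.1 a n = (t'.p.c a)[n] := val_of_mem (hw ξ) h1
  have h3 : w ∈ Ss a true n := h (bs_le ht1.2 ξ (bs_le ht'.2 ξ (hw ξ)))
  have h4 : (w.1 a n : K) = ⊥ := h3.2 rfl
  show (t'.p.c a)[n]? = some ⟨⊥, _⟩
  rw [h1, ← h2]
  congr 1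
  exact Subtype.ext h4

theorem not_meets_Sz (hG : ∀ (𝔸 : Sq K J) (ζ : J), Good (RR 𝔸) ζ) {t : TT K J} {ξ : J} {a : K}
    {n : ℕ} (h : bs t.p ξ ⊆ Ss a false n) : t ∈ fnot (meets (Sz a n)) := by
  intro t1 ht1 hm
  obtain ⟨t', ht', h'⟩ := exists_of_meets (down_Rg a n _) hm
  obtain ⟨w, hw⟩ := bs_nonempty (fun ζ _ => hG t'.𝔸 ζ) t'.mem
  have h2 := val_of_mem (hw ξ) h'
  have h3 : w ∈ Ss a false n := h (bs_le ht1.2 ξ (bs_le ht'.2 ξ (hw ξ)))
  have h4 : (w.1 a n : K) = ⊥ := by rw [h2]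
  exact absurd (h3.1 h4) (by simp)

end Pool.Agent.D0H61.CSLevel
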