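import Mathlib
import Pool.Agent.D0H61.CSStep

/-!
# The number of conditions below a stage
-/

namespace Pool.Agent.D0H61.CSSize

universe u

set_option linter.unusedSectionVars false

open Pool.Agent.Helper539.SGIter Pool.Agent.Helper539.SGDelta Pool.Agent.D0H61.CSStep
open Pool.Agent.Helper539.SGCount

variable {K : Type u} [LinearOrder K] [OrderBot K] [Reg K] [TS K]
  {J : Type u} [LinearOrder J] [WellFoundedLT J]


theorem leK_RR {𝔸 : J → K → ℕ → Set (Om K J)} {ξ : J} (h : LeK K (BB 𝔸 ξ)) : LeK K (RR 𝔸 ξ) := by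
  classical
  let X : Type u := {x : Rep K J × Finset K × ℕ // x.1 ∈ BB 𝔸 ξ}
  have hX : LeK K X := by
    have h1 : LeK K (ULift.{u} ℕ) := LeK.of_small inferInstance
    have h2 : LeK K (Finset K) := leK_K.finset
    refine (h.prod (h2.prod h1)).of_inj (fun x => (⟨x.1.1, x.2⟩, x.1.2.1, ULift.up x.1.2.2)) ?_
    rintro ⟨⟨a, b, c⟩, ha⟩ ⟨⟨a', b', c'⟩, ha'⟩ he
    simp only [Prod.mk.injEq, Subtype.mk.injEq, ULift.up.injEq] at he
    obtain ⟨e1, e2, e3⟩ := he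
    subst e1 e2 e3
    rfl
  have hF : LeK K (List ℕ → {S : Set X // Sm K S}) := hX.smallSets.fun_small
  have hφ : ∀ R : RR 𝔸 ξ, ∃ φ, PhiOk (BB 𝔸 ξ) φ ∧ R.1 = Rp ξ (GA 𝔸 ξ) φ :=
    fun R => mem_RR.1 R.2
  choose φ hφ1 hφ2 using hφ
  have hsm : ∀ (R : RR 𝔸 ξ) (s : List ℕ), Sm K {x : X | x.1 ∈ φ R s} := by
    intro R s
    have : Sm K (φ R s) := (hφ1 R s).2.1
    refine sm_of_injective (Y := φ R s) (f := fun x => ⟨x.1.1, x.2⟩) ?_
    rintro ⟨⟨a, ha⟩, ha'⟩ ⟨⟨b, hb⟩, hb'⟩ he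
    simp only [Subtype.mk.injEq] at he
    subst he
    rfl
  refine hF.of_inj (fun R s => ⟨{x : X | x.1 ∈ φ R s}, hsm R s⟩) ?_
  intro R R' he
  have hφe : φ R = φ R' := by
    funext s
    have h1 : {x : X | x.1 ∈ φ R s} = {x : X | x.1 ∈ φ R' s} :=
      congrArg Subtype.val (congrFun he s)
    ext x
    constructor
    · intro hx
      have : (⟨x, (hφ1 R s).1 x hx⟩ : X) ∈ {x : X | x.1 ∈ φ R s} := hx
      rw [h1] at this
      exact this
    · intro hx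
      have : (⟨x, (hφ1 R' s).1 x hx⟩ : X) ∈ {x : X | x.1 ∈ φ R' s} := hx
      rw [← h1] at this
      exact this
  apply Subtype.ext
  rw [hφ2 R, hφ2 R', hφe]

theorem leK_BB_step (hJ : ∀ ξ : J, LeK K (Set.Iio ξ)) (𝔸 : J → K → ℕ → Set (Om K J)) (ξ : J)
    (ih : ∀ η < ξ, LeK K (BB 𝔸 η)) : LeK K (BB 𝔸 ξ) := by
  classical
  have hlist : ∀ (α : Type u), Sm K α → Sm K (List α) := by
    intro α hα
    exact sm_list
  let X1 : Type u := Σ a : K, List (Set.Iic a)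
  have hX1 : LeK K X1 := leK_K.sigma _ fun a => LeK.of_small (hlist _ (sm_Iic a))
  let X2 : Type u := Σ η : Set.Iio ξ, (ULift.{u} (List ℕ)) × Finset (RR 𝔸 η.1)
  have hX2 : LeK K X2 := (hJ ξ).sigma _ fun η =>
    (LeK.of_small (sm_lift _)).prod (leK_RR (ih η.1 η.2)).finset
  let S1 : BB 𝔸 ξ → Set X1 := fun r => {p | p.2 ≠ [] ∧ r.1.c p.1 = p.2}
  let S2 : BB 𝔸 ξ → Set X2 := fun r => {p | p.1.1 ∈ supp r.1 ∧ r.1.st p.1.1 = p.2.1.down ∧
    r.1.pr p.1.1 = p.2.2.map (Function.Embedding.subtype _)}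
  have hS1 : ∀ r, Sm K (S1 r) := by
    intro r
    have hfin : Finite {a | r.1.c a ≠ []} := r.1.finc
    refine sm_of_injective (Y := {a | r.1.c a ≠ []})
      (f := fun p => ⟨p.1.1, by
        have h1 := p.2.1
        have h2 := p.2.2
        show r.1.c p.1.1 ≠ []
        rw [h2]; exact h1⟩) ?_
    rintro ⟨⟨a, l⟩, h1, h2⟩ ⟨⟨a', l'⟩, h1', h2'⟩ he
    simp only [Subtype.mk.injEq] at he
    subst he
    simp only at h2 h2'
    rw [h2] at h2'
    subst h2'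
    rfl
  have hS2 : ∀ r, Sm K (S2 r) := by
    intro r
    have hfin : Finite (supp r.1) := r.1.fin
    refine sm_of_injective (Y := supp r.1) (f := fun p => ⟨p.1.1.1, p.2.1⟩) ?_
    rintro ⟨⟨⟨η, hη⟩, ⟨s⟩, F⟩, h1, h2, h3⟩ ⟨⟨⟨η', hη'⟩, ⟨s'⟩, F'⟩, h1', h2', h3'⟩ he
    simp only [Subtype.mk.injEq] at he
    subst he
    simp only at h2 h2' h3 h3'
    rw [h2] at h2'
    rw [h3] at h3'
    have h4 := Finset.map_injective _ h3'
    subst h2' h4
    rfl
  refine (hX1.smallSets.prod hX2.smallSets).of_inj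
    (fun r => (⟨S1 r, hS1 r⟩, ⟨S2 r, hS2 r⟩)) ?_
  intro r r' he
  have e1 : S1 r = S1 r' := congrArg (fun z => z.1.1) he
  have e2 : S2 r = S2 r' := congrArg (fun z => z.2.1) he
  have key1 : ∀ r r' : BB 𝔸 ξ, S1 r = S1 r' → ∀ a, r.1.c a ≠ [] → r'.1.c a = r.1.c a := by
    intro r r' h a ha
    have h1 : (⟨a, r.1.c a⟩ : X1) ∈ S1 r := ⟨ha, rfl⟩
    rw [h] at h1
    exact h1.2
  have key2 : ∀ r r' : BB 𝔸 ξ, S2 r = S2 r' → ∀ η ∈ supp r.1,
      r'.1.st η = r.1.st η ∧ r'.1.pr η = r.1.pr η := by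
    intro r r' h η hη
    have hηξ : η < ξ := by
      by_contra hc
      obtain ⟨h1, h2⟩ := r.2.2 η (not_lt.1 hc)
      rcases hη with h3 | h3
      · exact h3 h1
      · exact h3 h2
    have hF : ((r.1.pr η).subtype (· ∈ RR 𝔸 η)).map (Function.Embedding.subtype _) =
        r.1.pr η := by
      rw [Finset.subtype_map]
      exact Finset.filter_true_of_mem fun R hR => r.2.1 η R hR
    have h1 : (⟨⟨η, hηξ⟩, ULift.up (r.1.st η), (r.1.pr η).subtype (· ∈ RR 𝔸 η)⟩ : X2) ∈ S2 r :=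
      ⟨hη, rfl, hF.symm⟩
    rw [h] at h1
    exact ⟨h1.2.1, h1.2.2.trans hF⟩
  apply Subtype.ext
  apply Rep.ext
  · funext a
    by_cases ha : r.1.c a = []
    · by_cases ha' : r'.1.c a = []
      · rw [ha, ha']
      · exact key1 r' r e1.symm a ha'
    · exact (key1 r r' e1 a ha).symm
  · funext η
    by_cases hη : η ∈ supp r.1
    · exact (key2 r r' e2 η hη).1.symm
    · by_cases hη' : η ∈ supp r'.1
      · exact (key2 r' r e2.symm η hη').1
      · rw [(notMem_supp hη).1, (notMem_supp hη').1]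
  · funext η
    by_cases hη : η ∈ supp r.1
    · exact (key2 r r' e2 η hη).2.symm
    · by_cases hη' : η ∈ supp r'.1
      · exact (key2 r' r e2.symm η hη').2
      · rw [(notMem_supp hη).2, (notMem_supp hη').2]

/-- If all proper initial segments of `J` have size `≤ κ`, there are at most `κ`
conditions below any `ξ`. -/
theorem leK_BB (hJ : ∀ ξ : J, LeK K (Set.Iio ξ)) (𝔸 : J → K → ℕ → Set (Om K J)) (ξ : J) :
    LeK K (BB 𝔸 ξ) := by
  induction ξ using WellFoundedLT.induction with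
  | ind ξ IH => exact leK_BB_step hJ 𝔸 ξ IH

end Pool.Agent.D0H61.CSSize
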