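import Mathlib
import Pool.Agent.D0H61.CSStep

/-!
# Sparse subsequences
-/

namespace Pool.Agent.D0H61.CSSparse

universe u

set_option linter.unusedSectionVars false

open Pool.Agent.Helper539.SGIter Pool.Agent.Helper539.SGDelta Pool.Agent.D0H61.CSStep
open Pool.Agent.Helper539.SGCount

variable {K : Type u} [LinearOrder K] [OrderBot K] [Reg K] [TS K]
  {J : Type u} [LinearOrder J] [WellFoundedLT J]

theorem exists_names5430 {RR' : J → Set (Pr K J)} {ξ : J} (hK : LeK K (Vd RR' ξ)) :
    ∃ X : K → ℕ → ℕ → Set (Om K J), (∀ g n m, Op (Vd RR' ξ) ξ (X g n m)) ∧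
      ∀ x : ℕ → ℕ → Set (Om K J), ∃ g, ∀ n m, X g n m ⊆ x n m ∧
        ∀ q ∈ Vd RR' ξ, bs q ξ ⊆ x n m →
          ∃ q' ∈ Vd RR' ξ, q' ≤ q ∧ bs q' ξ ⊆ X g n m := by
  classical
  have hN : LeK K (ℕ → ℕ → {S : Set (Vd RR' ξ) // Sm K S}) :=
    (hK.smallSets.fun_small).fun_small
  obtain ⟨f⟩ := hN
  have : Nonempty (ℕ → ℕ → {S : Set (Vd RR' ξ) // Sm K S}) :=
    ⟨fun _ _ => ⟨∅, inferInstance⟩⟩
  refine ⟨fun g n m => ⋃ a : (Function.invFun f g n m).1, bs a.1.1 ξ, ?_, ?_⟩
  · intro g n m
    exact Op_iUnion fun a => Op_bs a.1.2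
  · intro x
    choose A hA1 hA2 hA3 hA4 using fun n m => exists_small_open (RR' := RR') (ξ := ξ) (x n m)
    have hS : ∀ n m, Sm K ({a : Vd RR' ξ | a.1 ∈ A n m} : Set (Vd RR' ξ)) := by
      intro n m
      have := hA2 n m
      refine sm_of_injective
        (f := fun a : ({a : Vd RR' ξ | a.1 ∈ A n m} : Set (Vd RR' ξ)) =>
          (⟨a.1.1, a.2⟩ : A n m)) ?_
      intro a b hab
      exact Subtype.ext (Subtype.ext (by simpa using congrArg Subtype.val hab))
    refine ⟨f (fun n m => ⟨{a : Vd RR' ξ | a.1 ∈ A n m}, hS n m⟩), fun n m => ?_⟩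
    have hinv : Function.invFun f (f (fun n m => ⟨{a : Vd RR' ξ | a.1 ∈ A n m}, hS n m⟩)) =
        (fun n m => ⟨{a : Vd RR' ξ | a.1 ∈ A n m}, hS n m⟩) :=
      Function.leftInverse_invFun f.injective _
    beta_reduce
    rw [hinv]
    refine ⟨?_, ?_⟩
    · intro w hw
      obtain ⟨a, ha⟩ := Set.mem_iUnion.1 hw
      exact hA3 n m a.1.1 a.2 ha
    · intro q hq hsub
      obtain ⟨q', hq', hle, a, ha, hle2⟩ := hA4 n m q hq hsub
      refine ⟨q', hq', hle, fun w hw => ?_⟩
      exact Set.mem_iUnion.2 ⟨⟨⟨a, hA1 n m ha⟩, ha⟩, bs_le hle2 ξ hw⟩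

theorem GG_congr5430 {G G' : K → ℕ → Set (Om K J)} {u : Finset K} (h : ∀ e ∈ u, G e = G' e) :
    GG G u = GG G' u := by
  funext n
  ext w
  constructor
  · intro hw d hd
    rw [← h d hd]
    exact hw d hd
  · intro hw d hd
    rw [h d hd]
    exact hw d hd

theorem Kx_congr5430 {G G' : K → ℕ → Set (Om K J)} {u : Finset K} (h : ∀ e ∈ u, G e = G' e)
    (x : ℕ → ℕ → Set (Om K J)) (b : K) (s : Bool) :
    Kx G x b s u = Kx G' x b s u := by
  funext n
  unfold Kx
  rw [GG_congr5430 h]

theorem small_finset5430 (X : Type u) [Sm K X] : Sm K (Finset X) :=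
  sm_finset

/-- A sequence hitting every infinite set on a closed unbounded subset of `T` agrees on such a
set with a sparse sequence. -/
theorem exists_sparse {RR' : J → Set (Pr K J)} {ξ : J} (hG : ∀ ζ < ξ, Good RR' ζ)
    (hK : LeK K (Vd RR' ξ)) {E : K → ℕ → Set (Om K J)} (hE : HT (Vd RR' ξ) ξ E) :
    ∃ G : K → ℕ → Set (Om K J), Pick (Vd RR' ξ) ξ E G := by
  classical
  obtain ⟨X, hX, hXs⟩ := exists_names5430 hK
  have hβ0 := hE.2
  choose! β hβ using hβ0
  -- the condition for keeping the set number `d`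
  let ok : K → (K → ℕ → Set (Om K J)) → Prop := fun d G => d ∈ TS.T (K := K) ∧ ⊥ < d ∧
    (∀ (g b : K) (s : Bool) (u : Finset K), g < d → b < d → (∀ e ∈ u, e < d) →
      Closed (β (Kx G (X g) b s u)) d) ∧
    ∀ u : Finset K, (∀ e ∈ u, e < d) → Closed (β (GG G u)) d
  have hok : ∀ d G G', (∀ e < d, G e = G' e) → (ok d G ↔ ok d G') := by
    have key : ∀ d G G', (∀ e < d, G e = G' e) → ok d G → ok d G' := by
      rintro d G G' h ⟨h1, h0, h2, h3⟩
      refine ⟨h1, h0, fun g b s u hg hb hu => ?_, fun u hu => ?_⟩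
      · rw [← Kx_congr5430 (G := G) (G' := G') (fun e he => h e (hu e he))]
        exact h2 g b s u hg hb hu
      · rw [← GG_congr5430 (G := G) (G' := G') (fun e he => h e (hu e he))]
        exact h3 u hu
    exact fun d G G' h => ⟨key d G G' h, key d G' G fun e he => (h e he).symm⟩
  let G : K → ℕ → Set (Om K J) := WellFoundedLT.fix (motive := fun _ : K => ℕ → Set (Om K J))
    fun d f => if ok d (fun e => if h : e < d then f e h else fun _ => Set.univ) then E d
      else fun _ => Set.univ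
  have hGeq : ∀ d, G d = if ok d G then E d else fun _ => Set.univ := by
    intro d
    have h1 : G d = if ok d (fun e => if e < d then G e else fun _ => Set.univ) then E d
        else fun _ => Set.univ := by
      show WellFoundedLT.fix (motive := fun _ : K => ℕ → Set (Om K J)) _ d = _
      rw [WellFoundedLT.fix_eq]
      rfl
    rw [h1]
    have h2 := hok d (fun e => if e < d then G e else fun _ => Set.univ) G (fun e he => by
      show (if e < d then G e else fun _ => Set.univ) = G e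
      rw [if_pos he])
    simp only [h2]
  have hpos : ∀ d, ok d G → G d = E d := fun d h => by rw [hGeq, if_pos h]
  have hneg : ∀ d, ¬ ok d G → G d = fun _ => Set.univ := fun d h => by rw [hGeq, if_neg h]
  have hop : ∀ d n, Op (Vd RR' ξ) ξ (G d n) := by
    intro d n
    by_cases h : ok d G
    · rw [hpos d h]; exact hE.1 d n
    · rw [hneg d h]; exact Op_univ
  -- the closed unbounded set
  have hH : ∀ e : K, ∃ c : K,
      ∀ i : (Set.Iic e × Set.Iic e × Bool × Finset (Set.Iic e)) × Set.Iic e,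
        max (β (Kx G (X i.1.1.1) i.1.2.1.1 i.1.2.2.1
          (i.1.2.2.2.map (Function.Embedding.subtype _))) i.2.1)
          (β (GG G (i.1.2.2.2.map (Function.Embedding.subtype _))) i.2.1) < c := by
    intro e
    have h1 : Sm K (Set.Iic e) := sm_Iic e
    have h2 : Sm K (Finset (Set.Iic e)) := small_finset5430 _
    have h3 : Sm K (Bool × Finset (Set.Iic e)) := by infer_instance
    have h4 : Sm K (Set.Iic e × Bool × Finset (Set.Iic e)) := by infer_instance
    have h5 : Sm K (Set.Iic e × Set.Iic e × Bool × Finset (Set.Iic e)) := by infer_instance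
    exact exists_lt_range _
  choose H hH using hH
  have hmap : ∀ (e : K) (u : Finset K), (∀ x ∈ u, x ≤ e) →
      (u.subtype (· ∈ Set.Iic e)).map (Function.Embedding.subtype _) = u := by
    intro d u hu
    exact Finset.subtype_map_of_mem hu
  have hmax : ∀ (d : K), ⊥ < d → ∀ (g b c : K) (u : Finset K), g < d → b < d → c < d →
      (∀ e ∈ u, e < d) → ∃ m < d, g ≤ m ∧ b ≤ m ∧ c ≤ m ∧ ∀ e ∈ u, e ≤ m := by
    intro d hd g b c u hg hb hc hu
    obtain ⟨m, hm1, hm2⟩ : ∃ m < d, ∀ e ∈ u, e ≤ m := by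
      induction u using Finset.induction_on with
      | empty => exact ⟨⊥, hd, by simp⟩
      | insert x u _ ih =>
        obtain ⟨m, h1, h2⟩ := ih fun e he => hu e (Finset.mem_insert_of_mem he)
        refine ⟨max m x, max_lt h1 (hu x (Finset.mem_insert_self _ _)), fun e he => ?_⟩
        rcases Finset.mem_insert.1 he with rfl | he
        · exact le_max_right _ _
        · exact (h2 e he).trans (le_max_left _ _)
    exact ⟨max m (max g (max b c)), max_lt hm1 (max_lt hg (max_lt hb hc)),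
      (le_max_left _ _).trans (le_max_right _ _),
      ((le_max_left _ _).trans (le_max_right _ _)).trans (le_max_right _ _),
      ((le_max_right _ _).trans (le_max_right _ _)).trans (le_max_right _ _),
      fun e he => (hm2 e he).trans (le_max_left _ _)⟩
  have hclub : ∀ d ∈ TS.T (K := K), Closed H d → ok d G := by
    intro d hd hcl
    refine ⟨hd, hcl.1, fun g b s u hg hb hu => ⟨hcl.1, fun c hc => ?_⟩,
      fun u hu => ⟨hcl.1, fun c hc => ?_⟩⟩
    · obtain ⟨m, hm, h1, h2, h3, h4⟩ := hmax d hcl.1 g b c u hg hb hc hu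
      have h5 := (hH m ((⟨g, h1⟩, ⟨b, h2⟩, s, u.subtype (· ∈ Set.Iic m)), ⟨c, h3⟩)).trans
        (hcl.2 m hm)
      simp only [hmap m u h4] at h5
      exact lt_of_le_of_lt (le_max_left _ _) h5
    · obtain ⟨m, hm, h1, h2, h3, h4⟩ := hmax d hcl.1 c c c u hc hc hc hu
      have h5 := (hH m ((⟨c, h1⟩, ⟨c, h2⟩, true, u.subtype (· ∈ Set.Iic m)), ⟨c, h3⟩)).trans
        (hcl.2 m hm)
      simp only [hmap m u h4] at h5
      exact lt_of_le_of_lt (le_max_right _ _) h5
  refine ⟨G, ⟨hop, ?_, ?_, ?_⟩, H, fun d hd hcl => hpos d (hclub d hd hcl)⟩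
  · intro u
    induction u using Finset.induction_on_max with
    | empty =>
      intro q hq q' hq' hle N
      refine ⟨q', hq', le_rfl, N, le_rfl, fun w _ d hd => ?_⟩
      exact absurd hd (Finset.notMem_empty d)
    | insert d u hu ih =>
      intro q hq
      by_cases h : ok d G
      · have h1 := hβ (GG G u) (fun n => Op_GG hG hop u n) d h.1 (h.2.2.2 u hu) q hq (ih q hq)
        refine h1.mono fun n w hw e he => ?_
        rcases Finset.mem_insert.1 he with rfl | he
        · rw [hpos e h]; exact hw.2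
        · exact hw.1 e he
      · refine (ih q hq).mono fun n w hw e he => ?_
        rcases Finset.mem_insert.1 he with rfl | he
        · rw [hneg e h]; trivial
        · exact hw e he
  · intro d hd n
    rw [hneg d fun h => hd h.1]
  · intro x hx
    obtain ⟨g, hg⟩ := hXs x
    obtain ⟨g', hg'⟩ := exists_gt' g
    refine ⟨g', fun d hd b hb s u hu q hq hInf => ?_⟩
    have hgd : g < d := hg'.trans_le hd
    by_cases h : ok d G
    · have h0 : Inf (Vd RR' ξ) ξ (Kx G (X g) b s u) q := by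
        refine hInf.dense fun n r hr hle hsub => ?_
        obtain ⟨w, hw⟩ := bs_nonempty hG hr
        obtain ⟨⟨m, hm1, hm2⟩, hm3⟩ := hsub (hw ξ)
        obtain ⟨r1, hr1, hle1, _, hs1⟩ :=
          Op_exists_le hG (Op_inter hG (hx n m) (Op_Ss RR' ξ b s m)) hr (hw ξ) ⟨hm1, hm2⟩
        obtain ⟨r2, hr2, hle2, hs2⟩ := (hg n m).2 r1 hr1 (hs1.trans Set.inter_subset_left)
        refine ⟨r2, hr2, hle2.trans hle1, fun v hv => ⟨⟨m, hs2 hv, ?_⟩, ?_⟩⟩
        · exact (hs1 (bs_le hle2 ξ hv)).2
        · exact (hsub (bs_le (hle2.trans hle1) ξ hv)).2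
      have h1 := hβ (Kx G (X g) b s u) (fun n => Op_Kx hG hop (hX g) b s u n) d h.1
        (h.2.2.1 g b s u hgd hb hu) q hq h0
      refine h1.mono fun n w hw => ?_
      obtain ⟨⟨⟨m, hm1, hm2⟩, hm3⟩, hw2⟩ := hw
      refine ⟨⟨m, (hg n m).1 hm1, hm2⟩, fun e he => ?_⟩
      rcases Finset.mem_insert.1 he with rfl | he
      · rw [hpos e h]; exact hw2
      · exact hm3 e he
    · refine hInf.mono fun n w hw => ⟨hw.1, fun e he => ?_⟩
      rcases Finset.mem_insert.1 he with rfl | he
      · rw [hneg e h]; trivial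
      · exact hw.2 e he

end Pool.Agent.D0H61.CSSparse
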