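import Mathlib
import Pool.Agent.D0H61.CSStep
import Pool.Agent.D0H61.CSSparse
import Pool.Agent.D0H61.CSSize
import Pool.Agent.D0H61.CSReduce

/-!
# The iteration is good at every stage
-/

namespace Pool.Agent.D0H61.CSGood

universe u

set_option linter.unusedSectionVars false

open Pool.Agent.Helper539.SGIter Pool.Agent.Helper539.SGDelta Pool.Agent.D0H61.CSStep
open Pool.Agent.Helper539.SGCount
open Pool.Agent.D0H61.CSSparse Pool.Agent.D0H61.CSSize Pool.Agent.D0H61.CSReduce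

variable {K : Type u} [LinearOrder K] [OrderBot K] [Reg K] [TS K]
  {J : Type u} [LinearOrder J] [WellFoundedLT J]

theorem ht_univ {RR' : J → Set (Pr K J)} {ξ : J} :
    HT (Vd RR' ξ) ξ (fun _ _ => Set.univ) :=
  ⟨fun _ _ => Op_univ, fun _ _ => ⟨id, fun _ _ _ _ _ h => h.mono fun n => by simp⟩⟩

theorem ht_Ev {RR' : J → Set (Pr K J)} {ξ : J} (E : K → ℕ → Set (Om K J)) :
    HT (Vd RR' ξ) ξ (Ev (Vd RR' ξ) ξ E) := by
  unfold Ev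
  split_ifs with h
  · exact h
  · exact ht_univ

theorem gv_spec {RR' : J → Set (Pr K J)} {ξ : J} (hG : ∀ ζ < ξ, Good RR' ζ)
    (hK : LeK K (Vd RR' ξ)) (E : K → ℕ → Set (Om K J)) :
    Pick (Vd RR' ξ) ξ (Ev (Vd RR' ξ) ξ E) (Gv (Vd RR' ξ) ξ E) := by
  have h := exists_sparse hG hK (ht_Ev (RR' := RR') (ξ := ξ) E)
  have h1 : Gv (Vd RR' ξ) ξ E = h.choose := by
    unfold Gv
    rw [dif_pos h]
  rw [h1]
  exact h.choose_spec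

theorem good (hJ : ∀ ξ : J, LeK K (Set.Iio ξ)) (𝔸 : J → K → ℕ → Set (Om K J)) (ξ : J) :
    Good (RR 𝔸) ξ := by
  induction ξ using WellFoundedLT.induction with
  | ind ξ IH =>
    obtain ⟨hsp, _⟩ := gv_spec (RR' := RR 𝔸) (ξ := ξ) IH (leK_BB hJ 𝔸 ξ) (𝔸 ξ)
    constructor
    · intro R hR s m
      obtain ⟨φ, hφ, rfl⟩ := mem_RR.1 hR
      intro w hw
      obtain ⟨x, hx, h1, h2, h3⟩ := hw
      obtain ⟨q, hq, _, h4, h5⟩ := Op_exists_le IH (Op_GG IH hsp.op x.2.1 m) ((hφ s).1 x hx) h1 h3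
      obtain ⟨q', hq', h6, h7, h8⟩ := compat_of_point IH hq ((hφ s).1 x hx) h4 h1
      exact ⟨q', hq', h8, fun v hv => ⟨x, hx, bs_le h7 ξ hv, h2, h5 (bs_le h6 ξ hv)⟩⟩
    · intro F hF s q hq N
      obtain ⟨q', hq', hle, u, N', h⟩ := reduce F hF s q hq
      obtain ⟨q'', hq'', hle', m, hm, h'⟩ := hsp.fi u q' hq' q' hq' le_rfl (max N N')
      exact ⟨q'', hq'', hle'.trans hle, m, (le_max_left _ _).trans hm, fun R hR w hw =>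
        h R hR m ((le_max_right _ _).trans hm) ⟨bs_le hle' ξ hw, h' hw⟩⟩

theorem sparse (hJ : ∀ ξ : J, LeK K (Set.Iio ξ)) (𝔸 : J → K → ℕ → Set (Om K J)) (ξ : J) :
    Sparse (BB 𝔸 ξ) ξ (GA 𝔸 ξ) :=
  (gv_spec (RR' := RR 𝔸) (ξ := ξ) (fun ζ _ => good hJ 𝔸 ζ) (leK_BB hJ 𝔸 ξ) (𝔸 ξ)).1

theorem pick (hJ : ∀ ξ : J, LeK K (Set.Iio ξ)) (𝔸 : J → K → ℕ → Set (Om K J)) (ξ : J) :
    Pick (BB 𝔸 ξ) ξ (Ev (BB 𝔸 ξ) ξ (𝔸 ξ)) (GA 𝔸 ξ) :=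
  gv_spec (RR' := RR 𝔸) (ξ := ξ) (fun ζ _ => good hJ 𝔸 ζ) (leK_BB hJ 𝔸 ξ) (𝔸 ξ)

end Pool.Agent.D0H61.CSGood
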