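import Mathlib
import Pool.Agent.D0H61.CSStep

/-!
# Stationary sets

A subset of `K` is stationary if it meets the set of closure points of every function `K → K`.
We show Fodor's lemma and the existence of a stationary set with stationary complement.
-/

namespace Pool.Agent.D0H61.CSStat

universe u

set_option linter.unusedSectionVars false

open Pool.Agent.Helper539.SGCount Pool.Agent.D0H61.CSStep

variable {K : Type u} [LinearOrder K] [OrderBot K] [Reg K]

/-- the set `S` is stationary -/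
def Stat (S : Set K) : Prop := ∀ h : K → K, ∃ a ∈ S, Closed h a

theorem Stat.mono {S S' : Set K} (h : Stat S) (hs : S ⊆ S') : Stat S' := fun g => by
  obtain ⟨a, ha, hc⟩ := h g
  exact ⟨a, hs ha, hc⟩

/-- the points of countable cofinality -/
def Lim (K : Type u) [LinearOrder K] : Set K :=
  {a | ∃ f : ℕ → K, (∀ n, f n < a) ∧ ∀ b < a, ∃ n, b < f n}

theorem stat_Lim : Stat (Lim K) := by
  intro h
  have h1 : ∀ a : K, ∃ g : K, a < g ∧ ∀ b ≤ a, h b < g := by
    intro a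
    have h2 : Sm K (Set.Iic a) := sm_Iic a
    have h3 : Sm K (h '' Set.Iic a) := sm_image h (Set.Iic a)
    have h4 : Sm K (insert a (h '' Set.Iic a) : Set K) := by
      rw [Set.insert_eq]
      exact sm_union _ _
    obtain ⟨g, hg⟩ := exists_lt_of_small (insert a (h '' Set.Iic a))
    exact ⟨g, hg a (Or.inl rfl), fun b hb => hg _ (Or.inr ⟨b, hb, rfl⟩)⟩
  choose g hg1 hg2 using h1
  obtain ⟨o, ho⟩ := exists_gt' (⊥ : K)
  let s : ℕ → K := fun n => Nat.rec o (fun _ a => g a) n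
  have hs : ∀ n, s n < s (n + 1) := fun n => hg1 (s n)
  obtain ⟨a, ha, hmin⟩ := WellFounded.has_min (wellFounded_lt (α := K)) {a | ∀ n, s n ≤ a} (by
    obtain ⟨b, hb⟩ := exists_lt_range s
    exact ⟨b, fun n => (hb n).le⟩)
  have hlt : ∀ n, s n < a := fun n => (hs n).trans_le (ha (n + 1))
  have hex : ∀ b < a, ∃ n, b < s n := by
    intro b hb
    by_contra hcon
    push Not at hcon
    exact hmin b hcon hb
  refine ⟨a, ⟨s, hlt, hex⟩, ho.trans_le (ha 0), fun b hb => ?_⟩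
  obtain ⟨n, hn⟩ := hex b hb
  exact (hg2 (s n) b hn.le).trans_le (ha (n + 1))

/-- Fodor's lemma -/
theorem fodor {S : Set K} (hS : Stat S) {f : K → K} (hf : ∀ a ∈ S, f a < a) :
    ∃ γ, Stat {a | a ∈ S ∧ f a = γ} := by
  classical
  by_contra hcon
  unfold Stat at hcon
  push Not at hcon
  choose h hh using hcon
  have h1 : ∀ e : K, ∃ c : K, ∀ i : Set.Iic e × Set.Iic e, h i.1.1 i.2.1 < c := by
    intro e
    have h1 : Sm K (Set.Iic e) := sm_Iic e
    exact exists_lt_range _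
  choose H hH using h1
  obtain ⟨a, ha, hc⟩ := hS H
  refine hh (f a) a ⟨ha, rfl⟩ ⟨hc.1, fun b hb => ?_⟩
  have h2 : max (f a) b < a := max_lt (hf a ha) hb
  exact (hH (max (f a) b) (⟨f a, le_max_left _ _⟩, ⟨b, le_max_right _ _⟩)).trans (hc.2 _ h2)

/-- There is a stationary set whose complement is stationary. -/
theorem exists_stat : ∃ T : Set K, Stat T ∧ Stat Tᶜ := by
  classical
  have hlad : ∀ a : K, ∃ f : ℕ → K, a ∈ Lim K → (∀ n, f n < a) ∧ ∀ b < a, ∃ n, b < f n := by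
    intro a
    by_cases h : a ∈ Lim K
    · obtain ⟨f, hf⟩ := h
      exact ⟨f, fun _ => hf⟩
    · exact ⟨fun _ => a, fun h' => absurd h' h⟩
  choose η hη using hlad
  have h1 : ∃ n, ∀ β, Stat {a | a ∈ Lim K ∧ β ≤ η a n} := by
    by_contra hcon
    unfold Stat at hcon
    push Not at hcon
    choose β h hh using hcon
    have h1 : ∀ b : K, ∃ c : K, ∀ n : ℕ, max (h n b) (β n) < c := fun b => exists_lt_range _
    choose H hH using h1
    obtain ⟨a, ha, hc⟩ := stat_Lim H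
    have h2 : ∀ n, η a n < β n := by
      intro n
      by_contra h3
      refine hh n a ⟨ha, not_lt.1 h3⟩ ⟨hc.1, fun b hb => ?_⟩
      exact (lt_of_le_of_lt (le_max_left _ _) (hH b n)).trans (hc.2 b hb)
    obtain ⟨n, hn⟩ := (hη a ha).2 (H ⊥) (hc.2 ⊥ hc.1)
    exact absurd (lt_of_le_of_lt (le_max_right _ _) (hH ⊥ n)) (not_lt.2 (hn.trans (h2 n)).le)
  obtain ⟨n, hn⟩ := h1
  have h2 : ∀ β, ∃ γ, β ≤ γ ∧ Stat {a | a ∈ Lim K ∧ η a n = γ} := by
    intro β
    obtain ⟨γ, hγ⟩ := fodor (hn β) (f := fun a => η a n) fun a ha => (hη a ha.1).1 n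
    obtain ⟨a, ⟨⟨h3, h4⟩, h5⟩, _⟩ := hγ id
    exact ⟨γ, h4.trans_eq h5, hγ.mono fun b hb => ⟨hb.1.1, hb.2⟩⟩
  obtain ⟨γ, _, hγ⟩ := h2 ⊥
  obtain ⟨β, hβ⟩ := exists_gt' γ
  obtain ⟨γ', h3, hγ'⟩ := h2 β
  refine ⟨{a | a ∈ Lim K ∧ η a n = γ}, hγ, hγ'.mono fun a ha hb => ?_⟩
  have h4 : γ' = γ := ha.2.symm.trans hb.2
  rw [h4] at h3
  exact absurd hβ (not_lt.2 h3)

end Pool.Agent.D0H61.CSStat
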