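import Mathlib
import Pool.Agent.D0H61.CSLevel
import Pool.Agent.D0H61.CSStarAll
import Pool.Agent.D0H61.CSStat
import Pool.Agent.D0H61.CSDefs

/-!
# The family of all `S_a` is splitting in the extension
-/

namespace Pool.Agent.D0H61.CSSplit

universe u

set_option linter.unusedSectionVars false

open Pool.Agent.Helper539.SGIter Pool.Agent.Helper539.SGDelta Pool.Agent.D0H61.CSStep
open Pool.Agent.D0H61.CSTop Pool.Agent.Helper539.SPForcing Pool.Agent.D0H61.CSLevel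
open Pool.Agent.D0H61.CSStar Pool.Agent.D0H61.CSStarAll Pool.Agent.D0H61.CSGood
open Pool.Agent.D0H61.CSSize
open Pool.Agent.Helper539.SGCount Pool.Agent.D0H61.CSStat Pool.Agent.D0H61.CSDefs

variable {K : Type u} [LinearOrder K] [OrderBot K] [Reg K] [TS K]
  {J : Type u} [LinearOrder J] [WellFoundedLT J]

/-- a name of a set of natural numbers is decided at some stage -/
theorem exists_dcd (hJ : ∀ ξ : J, LeK K (Set.Iio ξ))
    (hcof : ∀ S : Set J, LeK K S → ∃ b, ∀ s ∈ S, s < b) {Y : Type u} (hY : LeK K Y)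
    (N : Y → Set (TT K J)) (b : J × Sq K J) : ∃ b', Ext b b' ∧ ∀ y, Dcd b' (meets (N y)) := by
  obtain ⟨b', h1, h2⟩ := exists_stage (fun 𝔸 ξ => leK_BB hJ 𝔸 ξ) hcof hY
    (fun y => {t | t ∈ meets (N y) ∨ t ∈ fnot (meets (N y))})
    (fun y t => by
      by_cases h : ∃ t' ≤ t, t' ∈ meets (N y)
      · obtain ⟨t', h1, h2⟩ := h
        exact ⟨t', h1, Or.inl h2⟩
      · push Not at h
        exact ⟨t, le_rfl, Or.inr h⟩)
    (fun y t ht t' ht' => ht.imp (fun h => down_meets _ _ h _ ht')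
      fun h => down_fnot _ _ h _ ht') b
  exact ⟨b', h1, fun y p hp => h2 y p hp⟩

/-- an infinite set of the extension is infinite for the conditions of a stage deciding it -/
theorem inf_of_infSet {x : ℕ → Set (TT K J)} {b : J × Sq K J} (hd : ∀ n, Dcd b (meets (x n)))
    {t : TT K J} (ht : t ∈ InfSet x) (hb : Ext t.b b) :
    Inf (BB b.2 b.1) b.1 (fun n => Lv b (meets (x n))) t.p := by
  intro q' hq' hle N
  obtain ⟨t1, ht1, k, hk, h1⟩ := mem_fex.1 (ht N) (tt b q' hq') ⟨hb, hle⟩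
  obtain ⟨q, h2, hq, h3⟩ := exists_of_force (down_meets _) (hd k) (t := t1) ht1.1 h1
  exact ⟨q, hq, h2.trans (res_le ht1.2 hq'.2), k, hk, bs_sub_Lv hq h3⟩

/-- The sets `S_a` (`a ∉ T`) form an `ω`-splitting family of size `κ`. -/
theorem omega_splitting (hT : Stat (TS.T (K := K))ᶜ) (hJ : ∀ ξ : J, LeK K (Set.Iio ξ))
    (hcof : ∀ S : Set J, LeK K S → ∃ b, ∀ s ∈ S, s < b) (p : TT K J) :
    p ∈ HasOmegaSplittingFamily (TT K J) K := by
  refine mem_fex_of_mem (fun a : K => Sz a) (down_fall fun _ => down_fimp _ _)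
    fun x => mem_fimp.2 fun t0 _ hx => ?_
  obtain ⟨b, hb, hd⟩ := exists_dcd hJ hcof (Y := ULift.{u} (ℕ × ℕ)) (LeK.of_small inferInstance)
    (fun n => x n.down.1 n.down.2) t0.b
  have hd' : ∀ i n, Dcd b (meets (x i n)) := fun i n => hd (ULift.up (i, n))
  have hG : ∀ (𝔸 : Sq K J) (ζ : J), Good (RR 𝔸) ζ := fun 𝔸 ζ => good hJ 𝔸 ζ
  have hinf := fun i => inf_of_infSet (hd' i) (hx i) hb
  choose h hh using fun i => star_all hJ b.2 b.1 (fun n => Lv b (meets (x i n)))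
    fun n => Op_Lv b _
  have hH : ∀ c : K, ∃ d : K, ∀ i : ℕ, h i c < d := fun c => exists_lt_range _
  choose H hH using hH
  obtain ⟨a, haT, haH⟩ := hT H
  have ha : ∀ i, Closed (h i) a := fun i => ⟨haH.1, fun c hc => (hH c i).trans (haH.2 c hc)⟩
  have hp : t0.p ∈ BB b.2 b.1 := hb.mem t0.mem
  have key : ∀ i, ∀ s : Bool, ∀ t ≤ tt b t0.p hp, ∀ N : ℕ, ∃ t' ≤ t, ∃ k, N ≤ k ∧
      t' ∈ meets (x i k) ∧ bs t'.p b.1 ⊆ Ss a s k := by
    intro i s t ht N
    obtain ⟨q, hq, h1, k, hk, h2⟩ := hh i a haT (ha i) t0.p hp (hinf i) s (Pool.Agent.Helper539.SGIter.res t.p b.1)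
      (ht.1.res_mem t.mem) (res_le ht.2 hp.2) N
    obtain ⟨t', h3, h4, _⟩ := exists_amal ht.1 hq h1
    have h5 : bs t'.p b.1 ⊆ bs q b.1 := bs_le h4.2 b.1
    exact ⟨t', h3, k, hk, force_of_sub hG (local_meets _) h4.1 (h5.trans fun w hw => (h2 hw).1),
      h5.trans fun w hw => (h2 hw).2⟩
  refine ⟨tt b t0.p hp, ⟨hb, le_rfl⟩, mem_fex_of_mem a (down_fall fun _ => down_FSplits _ _)
    fun i => ⟨fun N => ?_, fun N => ?_⟩⟩
  · refine mem_fex.2 fun t ht => ?_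
    obtain ⟨t', h1, k, hk, h2, h3⟩ := key i true t ht N
    exact ⟨t', h1, k, hk, h2, meets_Sz hG h3⟩
  · refine mem_fex.2 fun t ht => ?_
    obtain ⟨t', h1, k, hk, h2, h3⟩ := key i false t ht N
    exact ⟨t', h1, k, hk, h2, not_meets_Sz hG h3⟩

end Pool.Agent.D0H61.CSSplit
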