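import Mathlib
import Pool.Agent.D0H61.CSUnc

/-!
# There is no club-splitting sequence in the extension
-/

namespace Pool.Agent.D0H61.CSClub

universe u

set_option linter.unusedSectionVars false

open Pool.Agent.Helper539.SGIter Pool.Agent.Helper539.SGDelta Pool.Agent.D0H61.CSStep
open Pool.Agent.D0H61.CSTop Pool.Agent.Helper539.SPForcing Pool.Agent.D0H61.CSLevel
open Pool.Agent.D0H61.CSGood Pool.Agent.D0H61.CSSize Pool.Agent.D0H61.CSSplit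
open Pool.Agent.D0H61.CSMk Pool.Agent.D0H61.CSStat Pool.Agent.D0H61.CSDefs
open Pool.Agent.Helper539.SGCount

variable {K : Type u} [LinearOrder K] [OrderBot K] [Reg K] [TS K]
  {J : Type u} [LinearOrder J] [WellFoundedLT J]

/-- A closed unbounded set of the extension decided at some stage contains all closure points
of some function of the ground model. -/
theorem exists_closure {b : J × Sq K J} {C : K → Set (TT K J)} (hd : ∀ i, Dcd b (meets (C i)))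
    {t : TT K J} (hb : Ext t.b b) (ht : t ∈ IsClub C) :
    ∃ h : K → K, ∀ a, Closed h a → tt b t.p (hb.mem t.mem) ∈ meets (C a) := by
  classical
  have hp : t.p ∈ BB b.2 b.1 := hb.mem t.mem
  have htt : tt b t.p hp ≤ t := ⟨hb, le_rfl⟩
  let D : K → Set (Rep K J) := fun i => {q | q ∈ BB b.2 b.1 ∧ q ≤ t.p ∧ ∃ j, i < j ∧
    ∃ h : q ∈ BB b.2 b.1, tt b q h ∈ meets (C j)}
  have hD : ∀ i, ∀ q ∈ BB b.2 b.1, q ≤ t.p → ∃ q' ∈ D i, q' ≤ q := by
    intro i q hq hle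
    have hqt : tt b q hq ≤ t := ⟨hb, hle⟩
    obtain ⟨t1, ht1, j, hij, h1⟩ := mem_fex.1 (ht.1 i) (tt b q hq) hqt
    obtain ⟨q1, h2, hq1, h3⟩ := exists_of_force (down_meets _) (hd j) (t := t1) ht1.1 h1
    have h4 : q1 ≤ q := h2.trans (res_le ht1.2 hq.2)
    exact ⟨q1, ⟨hq1, h4.trans hle, j, hij, hq1, h3⟩, h4⟩
  choose A hA1 hA2 hA3 using fun i => exists_antichain (RR' := RR b.2) (ξ := b.1) (D i)
    fun q hq => hq.1
  choose j hj1 hj2 using fun (i : K) (x : A i) => (hA1 i x.2).2.2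
  have hh : ∀ i : K, ∃ c : K, ∀ x : A i, j i x < c := fun i => by
    have := hA2 i
    exact exists_lt_range _
  choose h hh using hh
  refine ⟨h, fun a ha => meets_of_dense fun t1 ht1 => ?_⟩
  have ht1' : t1 ∈ IsClub C := down_IsClub C _ ht t1 (ht1.trans htt)
  refine mem_fimp.1 (ht1'.2 a) t1 le_rfl ⟨⟨⊥, ha.1⟩, fun i => mem_fimp.2 fun t2 ht2 hi =>
    ⟨t2, le_rfl, mem_fex.2 fun t3 ht3 => ?_⟩⟩
  have hi' : i < a := hi
  have hle : t3 ≤ tt b t.p hp := (ht3.trans ht2).trans ht1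
  obtain ⟨q1, h1, h2⟩ := hD i (Pool.Agent.Helper539.SGIter.res t3.p b.1) (hle.1.res_mem t3.mem)
    (res_le hle.2 hp.2)
  obtain ⟨x, hx, q2, hq2, h3, h4⟩ := hA3 i q1 h1
  obtain ⟨t4, h5, h6, _⟩ := exists_amal hle.1 hq2 (h4.trans h2)
  obtain ⟨h7, h8⟩ := hj2 i ⟨x, hx⟩
  exact ⟨t4, h5, j i ⟨x, hx⟩, ⟨hj1 i ⟨x, hx⟩, (hh i ⟨x, hx⟩).trans (ha.2 i hi')⟩,
    down_meets _ _ h8 _ (h6.trans (tt_le (Ext.refl b) h3))⟩

/-! ### The first case: stationary many sets almost miss an infinite set -/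

/-- some infinite set is almost disjoint from stationary many of the sets `C i`, `i ∈ T` -/
def CaseA (B : Set (Rep K J)) (ξ : J) (p0 : Rep K J) (C : K → ℕ → Set (Om K J)) : Prop :=
  ∃ q0 ∈ B, q0 ≤ p0 ∧ ∃ Y : ℕ → Set (Om K J), (∀ n, Op B ξ (Y n)) ∧ Inf B ξ Y q0 ∧
    ∀ q ∈ B, q ≤ q0 → ∀ h : K → K, ∃ i ∈ TS.T (K := K), Closed h i ∧
      ¬ Inf B ξ (fun n => Y n ∩ C i n) q

/-- `Y` names an infinite set which is not split on a closed unbounded set of indices -/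
def Bad (c : K → ℕ → Set (TT K J)) (t1 : TT K J) (Y : ℕ → Set (TT K J)) : Prop :=
  t1 ∈ InfSet Y ∧ ∀ C : K → Set (TT K J), ∀ t2 ≤ t1, t2 ∈ IsClub C →
    (∀ a, t2 ∈ fimp (meets (C a)) (FSplits (c a) Y)) → False

theorem caseA (hJ : ∀ ξ : J, LeK K (Set.Iio ξ))
    (hcof : ∀ S : Set J, LeK K S → ∃ b, ∀ s ∈ S, s < b) {b : J × Sq K J} {p0 : Rep K J}
    (hp0 : p0 ∈ BB b.2 b.1) {c : K → ℕ → Set (TT K J)}
    (hd : ∀ i n, Dcd b (meets (c i n)))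
    (h : CaseA (BB b.2 b.1) b.1 p0 fun i n => Lv b (meets (c i n))) :
    ∃ t1 ≤ tt b p0 hp0, ∃ Y, Bad c t1 Y := by
  obtain ⟨q0, hq0, hle0, Y, _, hinf, hun⟩ := h
  let Yn : ℕ → Set (TT K J) := fun n => {t | ∃ q, ∃ h : q ∈ BB b.2 b.1, bs q b.1 ⊆ Y n ∧
    t ≤ tt b q h}
  have hdY : ∀ n, Down (Yn n) := fun n t ⟨q, h, h1, h2⟩ t' ht' => ⟨q, h, h1, ht'.trans h2⟩
  refine ⟨tt b q0 hq0, tt_le (Ext.refl b) hle0, Yn, fun N => mem_fex.2 fun t ht => ?_,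
    fun C t2 ht2 hC hall => ?_⟩
  · obtain ⟨q, hq, h2, n, hn, h3⟩ := hinf (Pool.Agent.Helper539.SGIter.res t.p b.1)
      (ht.1.res_mem t.mem) (res_le ht.2 hq0.2) N
    obtain ⟨t', h4, h5, _⟩ := exists_amal ht.1 hq h2
    exact ⟨t', h4, n, hn, meets_of_mem ⟨q, hq, h3, h5⟩⟩
  · obtain ⟨b2, hb2, hd2⟩ := exists_dcd hJ hcof (leK_K (K := K)) C t2.b
    obtain ⟨h, hh⟩ := exists_closure hd2 hb2 hC
    have hE : Ext b b2 := ht2.1.trans hb2
    obtain ⟨i, hi, hcl, hni⟩ := hun (Pool.Agent.Helper539.SGIter.res t2.p b.1)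
      (ht2.1.res_mem t2.mem) (res_le ht2.2 hq0.2) h
    unfold Inf at hni
    push Not at hni
    obtain ⟨q', hq', hle', N, hN⟩ := hni
    obtain ⟨t3, h3, h4, _⟩ := exists_amal (t := tt b2 t2.p (hb2.mem t2.mem)) hE hq' hle'
    have h5 : t3 ≤ t2 := h3.trans ⟨hb2, le_rfl⟩
    have h6 : t3 ∈ meets (C i) := down_meets _ _ (hh i hcl) _ h3
    obtain ⟨t4, h7, h8⟩ := mem_fimp.1 (hall i) t3 h5 h6
    obtain ⟨t5, h9, k, hk, h10, h11⟩ := mem_fex.1 (h8.1 N) t4 le_rfl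
    obtain ⟨t6, h12, q1, hq1, h13, h14⟩ := exists_of_meets (hdY k) h10
    have h15 : t6 ∈ meets (c i k) := down_meets _ _ h11 _ h12
    have h16 : t6 ≤ tt b q' hq' := (h12.trans (h9.trans h7)).trans h4
    obtain ⟨q3, h17, hq3, h18⟩ := exists_of_force (down_meets _) (hd i k) h14.1 h15
    have h19 : q3 ≤ q1 := h17.trans (res_le h14.2 hq1.2)
    have h20 : q3 ≤ q' := h17.trans (res_le h16.2 hq'.2)
    exact hN q3 hq3 h20 k hk fun w hw => ⟨h13 (bs_le h19 b.1 hw), bs_sub_Lv hq3 h18 hw⟩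

/-! ### The second case -/

/-- the modified sequence -/
def Em (b : J × Sq K J) (p0 : Rep K J) (c : K → ℕ → Set (TT K J)) (i : K) (n : ℕ) : Set (Om K J) :=
  Lv b (meets (c i n)) ∪
    ⋃ q ∈ {q : Rep K J | q ∈ BB b.2 b.1 ∧ ¬ Cpt (BB b.2 b.1) q p0}, bs q b.1

theorem ht_Em {b : J × Sq K J} {p0 : Rep K J} {c : K → ℕ → Set (TT K J)}
    (h : ¬ CaseA (BB b.2 b.1) b.1 p0 fun i n => Lv b (meets (c i n))) :
    HT (BB b.2 b.1) b.1 (Em b p0 c) := by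
  unfold CaseA at h
  push Not at h
  refine ⟨fun i n => ?_, fun Y hY => ?_⟩
  · rintro w (hw | hw)
    · obtain ⟨q, hq, h1, h2⟩ := Op_Lv b _ w hw
      exact ⟨q, hq, h1, h2.trans Set.subset_union_left⟩
    · have h1 : Op (BB b.2 b.1) b.1
          (⋃ q ∈ {q : Rep K J | q ∈ BB b.2 b.1 ∧ ¬ Cpt (BB b.2 b.1) q p0}, bs q b.1) :=
        Op_iUnion fun _ => Op_iUnion fun hq => Op_bs hq.1
      obtain ⟨q, hq, h2, h3⟩ := h1 w hw
      exact ⟨q, hq, h2, h3.trans Set.subset_union_right⟩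
  · obtain ⟨A, hA1, hA2, hA3⟩ := exists_antichain (RR' := RR b.2) (ξ := b.1)
      {q | q ∈ BB b.2 b.1 ∧ ∃ g : K → K, ∀ i ∈ TS.T (K := K), Closed g i →
        Inf (BB b.2 b.1) b.1 (fun n => Y n ∩ Lv b (meets (c i n))) q} fun q hq => hq.1
    choose g hg using fun a : A => (hA1 a.2).2
    have hz : ∀ e : K, ∃ z : K, ∀ a : A, g a e < z := fun e => exists_lt_range _
    choose z hz using hz
    refine ⟨z, fun i hiT hi q hq hinf q' hq' hle N => ?_⟩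
    by_cases hc : Cpt (BB b.2 b.1) q' p0
    · obtain ⟨q1, hq1, h1, h2⟩ := hc
      obtain ⟨q2, hq2, h3, g', h4⟩ := h q1 hq1 h2 Y hY (hinf.mono_q (h1.trans hle))
      obtain ⟨a, ha, q3, hq3, h5, h6⟩ := hA3 q2 ⟨hq2, g', h4⟩
      have hcl : Closed (g ⟨a, ha⟩) i := ⟨hi.1, fun e he => (hz e ⟨a, ha⟩).trans (hi.2 e he)⟩
      obtain ⟨q4, hq4, h7, n, hn, h8⟩ :=
        (hg ⟨a, ha⟩ i hiT hcl).mono_q h5 q3 hq3 le_rfl N
      exact ⟨q4, hq4, ((h7.trans h6).trans h3).trans h1, n, hn,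
        fun w hw => ⟨(h8 hw).1, Or.inl (h8 hw).2⟩⟩
    · obtain ⟨q'', hq'', h1, n, hn, h2⟩ := hinf q' hq' hle N
      refine ⟨q'', hq'', h1, n, hn, fun w hw => ⟨h2 hw, Or.inr ?_⟩⟩
      refine Set.mem_biUnion (x := q'') ⟨hq'', ?_⟩ hw
      rintro ⟨r, hr, h3, h4⟩
      exact hc ⟨r, hr, h3.trans h1, h4⟩

/-- the promise to stay in the set number `d` -/
def Rd (G : K → ℕ → Set (Om K J)) (ξ : J) (d : K) : Pr K J :=
  Rp ξ G fun _ => {(one K J, {d}, 0)}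

theorem Rd_mem {𝔸 : Sq K J} {ξ : J} (d : K) : Rd (GA 𝔸 ξ) ξ d ∈ RR 𝔸 ξ := by
  refine mem_RR.2 ⟨_, fun s => ⟨?_, ?_, fun q hq => ?_⟩, rfl⟩
  · rintro x rfl
    exact one_mem _ _
  · infer_instance
  · exact ⟨_, rfl, q, hq, le_rfl, le_one q⟩

open Classical in
/-- adding a promise -/
noncomputable def addpr (q : Rep K J) (η : J) (R : Pr K J) : Rep K J where
  c := q.c
  st := q.st
  pr := Function.update q.pr η (insert R (q.pr η))
  finc := q.finc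
  fin := by
    refine (q.fin.union (Set.finite_singleton η)).subset fun ζ hζ => ?_
    by_cases h : ζ = η
    · right; exact h
    · left; simpa [Function.update_of_ne h] using hζ

theorem addpr_self (q : Rep K J) (η : J) (R : Pr K J) : R ∈ (addpr q η R).pr η := by
  simp [addpr]

theorem addpr_le (q : Rep K J) (η : J) (R : Pr K J) : addpr q η R ≤ q := by
  refine ⟨fun _ => List.prefix_refl _, fun ζ => ⟨List.prefix_refl _, ?_,
    fun _ _ _ _ h h' => (no_new h h').elim⟩⟩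
  by_cases h : ζ = η
  · subst h
    simp [addpr]
  · simp [addpr, Function.update_of_ne h]

theorem addpr_mem {RR' : J → Set (Pr K J)} {q : Rep K J} {η ξ : J} (hq : q ∈ Vd RR' ξ) (hη : η < ξ)
    {R : Pr K J} (hR : R ∈ RR' η) : addpr q η R ∈ Vd RR' ξ := by
  refine ⟨fun ζ R' hR' => ?_, fun ζ hζ => ⟨(hq.2 ζ hζ).1, ?_⟩⟩
  · by_cases h : ζ = η
    · subst h
      simp only [addpr, Function.update_self, Finset.mem_insert] at hR'
      rcases hR' with rfl | hR'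
      · exact hR
      · exact hq.1 _ _ hR'
    · simp only [addpr, Function.update_of_ne h] at hR'
      exact hq.1 _ _ hR'
  · have h : ζ ≠ η := (hη.trans_le hζ).ne'
    simp only [addpr, Function.update_of_ne h]
    exact (hq.2 ζ hζ).2

/-- the generic set added at stage `ξ` -/
def Gen (ξ : J) (m : ℕ) : Set (TT K J) := {t | ∃ s, s ++ [m] <+: t.p.st ξ}

theorem down_Gen (ξ : J) (m : ℕ) : Down (Gen (K := K) ξ m) :=
  fun _ ⟨s, h1⟩ _ ht' => ⟨s, h1.trans (le_st ht'.2 ξ)⟩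

theorem caseB (hT : Stat (TS.T (K := K))) (hJ : ∀ ξ : J, LeK K (Set.Iio ξ))
    (hcof : ∀ S : Set J, LeK K S → ∃ b, ∀ s ∈ S, s < b) {b : J × Sq K J} {p0 : Rep K J}
    (hp0 : p0 ∈ BB b.2 b.1) {c : K → ℕ → Set (TT K J)}
    (h : ¬ CaseA (BB b.2 b.1) b.1 p0 fun i n => Lv b (meets (c i n)))
    {ξ' : J} (hξ' : IsSuc b.1 ξ') :
    ∃ t1 ≤ tt b p0 hp0, ∃ Y, Bad c t1 Y := by
  classical
  have hG : ∀ (𝔸 : Sq K J) (ζ : J), Good (RR 𝔸) ζ := fun 𝔸 ζ => good hJ 𝔸 ζ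
  obtain ⟨ξ, 𝔸⟩ := b
  simp only at hp0 h hξ'
  set b : J × Sq K J := (ξ, 𝔸) with hbdef
  set 𝔸' : Sq K J := Function.update 𝔸 ξ (Em b p0 c) with h𝔸'
  set b' : J × Sq K J := (ξ', 𝔸') with hb'def
  have hbb' : Ext b b' := ⟨hξ'.1.le, fun ζ hζ => (Function.update_of_ne (ne_of_lt hζ) _ _).symm⟩
  have hBB : BB 𝔸' ξ = BB 𝔸 ξ := (BB_congr hbb'.2).symm
  have hself : 𝔸' ξ = Em b p0 c := Function.update_self _ _ _
  have h2 : Ev (BB 𝔸' ξ) ξ (𝔸' ξ) = Em b p0 c := by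
    have h1 : HT (BB 𝔸' ξ) ξ (𝔸' ξ) := by
      rw [hself, hBB]
      exact ht_Em h
    unfold Ev
    rw [if_pos h1, hself]
  obtain ⟨H, hH⟩ : ∃ H : K → K, ∀ d ∈ TS.T (K := K), Closed H d → GA 𝔸' ξ d = Em b p0 c d := by
    obtain ⟨H, hH⟩ := (pick hJ 𝔸' ξ).2
    rw [h2] at hH
    exact ⟨H, hH⟩
  have hp0' : p0 ∈ BB b'.2 b'.1 := hbb'.mem hp0
  refine ⟨tt b' p0 hp0', ⟨hbb', le_rfl⟩, Gen ξ, fun M => mem_fex.2 fun t ht => ?_,
    fun C t2 ht2 hC hall => ?_⟩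
  · have hlt : ξ < t.α := hξ'.1.trans_le ht.1.1
    obtain ⟨q, hq, h4, m, hm, h5⟩ := (hG t.𝔸 ξ).amal (t.p.pr ξ) (t.mem.1 ξ) (t.p.st ξ)
      (Pool.Agent.Helper539.SGIter.res t.p ξ) (Pool.Agent.Helper539.SGIter.res_mem t.mem.1 ξ) M
    have h6 : push (glue q t.p ξ) ξ m ∈ BB t.𝔸 t.α :=
      push_mem (glue_mem hq t.mem hlt.le) hlt m
    have h7 : push (glue q t.p ξ) ξ m ≤ t.p := by
      refine le_trans (push_le fun R hR => ?_) (glue_le h4)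
      rw [glue_pr_ge le_rfl] at hR
      rw [glue_st_ge le_rfl, bs_glue le_rfl]
      exact h5 R hR
    refine ⟨tt t.b (push (glue q t.p ξ) ξ m) h6, ⟨Ext.refl _, h7⟩, m, hm,
      meets_of_mem ⟨t.p.st ξ, ?_⟩⟩
    show t.p.st ξ ++ [m] <+: (push (glue q t.p ξ) ξ m).st ξ
    rw [push_st_self, glue_st_ge le_rfl]
  · obtain ⟨b2, hb2, hd2⟩ := exists_dcd hJ hcof (leK_K (K := K)) C t2.b
    obtain ⟨g, hg⟩ := exists_closure hd2 hb2 hC
    have hE : Ext b' b2 := ht2.1.trans hb2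
    obtain ⟨d, hdT, hd⟩ := hT fun e => max (g e) (H e)
    have hdg : Closed g d := ⟨hd.1, fun e he => lt_of_le_of_lt (le_max_left _ _) (hd.2 e he)⟩
    have hdH : Closed H d := ⟨hd.1, fun e he => lt_of_le_of_lt (le_max_right _ _) (hd.2 e he)⟩
    have hGA : GA 𝔸' ξ d = Em b p0 c d := hH d hdT hdH
    have hRmem : Rd (GA 𝔸' ξ) ξ d ∈ RR b2.2 ξ := by
      have h3 : RR b2.2 ξ = RR 𝔸' ξ :=
        RR_congr fun ζ hζ => (hE.2 ζ (lt_of_le_of_lt hζ hξ'.1)).symm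
      rw [h3]
      exact Rd_mem d
    have hlt : ξ < b2.1 := hξ'.1.trans_le hE.1
    set t3 : TT K J := tt b2 (addpr t2.p ξ (Rd (GA 𝔸' ξ) ξ d))
      (addpr_mem (hb2.mem t2.mem) hlt hRmem) with ht3
    have h3 : t3 ≤ tt b2 t2.p (hb2.mem t2.mem) := tt_le (Ext.refl b2) (addpr_le _ _ _)
    have h5 : t3 ≤ t2 := h3.trans ⟨hb2, le_rfl⟩
    have h6 : t3 ∈ meets (C d) := down_meets _ _ (hg d hdg) _ h3
    obtain ⟨t4, h7, h8⟩ := mem_fimp.1 (hall d) t3 h5 h6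
    obtain ⟨N, hN⟩ : ∃ N, ∀ x ∈ t3.p.st ξ, x < N := by
      refine ⟨(t3.p.st ξ).sum + 1, fun x hx => ?_⟩
      have := List.single_le_sum (l := t3.p.st ξ) (fun _ _ => Nat.zero_le _) x hx
      omega
    obtain ⟨t5, h9, k, hk, h10, h11⟩ := mem_fex.1 (h8.2 N) t4 le_rfl
    obtain ⟨t6, h12, s, h13⟩ := exists_of_meets (down_Gen ξ k) h10
    have h63 : t6 ≤ t3 := h12.trans (h9.trans h7)
    have h14 : (t3.p.st ξ).length ≤ s.length := by
      by_contra hcon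
      have h15 : s ++ [k] <+: t3.p.st ξ :=
        List.prefix_of_prefix_length_le h13 (le_st h63.2 ξ) (by
          rw [List.length_append, List.length_singleton]; omega)
      have h16 : k ∈ t3.p.st ξ := h15.subset (by simp)
      have h17 : N ≤ k := hk
      exact absurd (hN k h16) (not_lt.2 h17)
    have h15 : bs t6.p ξ ⊆ Rd (GA 𝔸' ξ) ξ d s k :=
      le_new h63.2 (addpr_self t2.p ξ _) h13 h14
    have h16 : t6.p ≤ p0 := (h63.trans (h5.trans ht2)).2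
    have hEb : Ext b t6.b := hbb'.trans ((h63.trans (h5.trans ht2)).1)
    have h17 : t6 ∈ meets (c d k) := by
      refine force_of_sub hG (local_meets _) (b := b) hEb fun w hw => ?_
      obtain ⟨x', hx', _, _, h18⟩ := h15 hw
      have hx'' : x' = (one K J, {d}, 0) := hx'
      rw [hx''] at h18
      have h19 : w ∈ GA 𝔸' ξ d k := h18 d (Finset.mem_singleton_self d)
      rw [hGA] at h19
      rcases h19 with h19 | h19
      · exact h19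
      · simp only [Set.mem_iUnion] at h19
        obtain ⟨r, hr, h20⟩ := h19
        obtain ⟨r', hr', h21, h22, _⟩ := compat_of_point (fun ζ _ => hG 𝔸 ζ) hr.1 hp0 h20
          (bs_le h16 ξ hw)
        exact absurd ⟨r', hr', h21, h22⟩ hr.2
    exact h11 t6 h12 h17

/-- There is no club-splitting sequence in the extension. -/
theorem no_clubSplitting (hT : Stat (TS.T (K := K))) (hJ : ∀ ξ : J, LeK K (Set.Iio ξ))
    (hcof : ∀ S : Set J, LeK K S → ∃ b, ∀ s ∈ S, s < b) (p : TT K J) :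
    p ∈ fnot (HasClubSplittingSequence (TT K J) K) := by
  intro t _ hex
  obtain ⟨t0, _, c, hc⟩ := mem_fex.1 hex t le_rfl
  have hN : LeK K (ULift.{u} ℕ) := LeK.of_small inferInstance
  have hK : LeK K K := leK_K
  obtain ⟨b, hb, hd⟩ := exists_dcd hJ hcof (Y := K × ULift.{u} ℕ) (hK.prod hN)
    (fun x => c x.1 x.2.down) t0.b
  have hd' : ∀ i n, Dcd b (meets (c i n)) := fun i n => hd (i, ULift.up n)
  have hp0 : t0.p ∈ BB b.2 b.1 := hb.mem t0.mem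
  obtain ⟨ξ', hξ', hmin⟩ := WellFounded.has_min (wellFounded_lt (α := J)) {ζ | b.1 < ζ} (by
    obtain ⟨z, hz⟩ := hcof {b.1} (LeK.of_small inferInstance)
    exact ⟨z, hz _ rfl⟩)
  have hsuc : IsSuc b.1 ξ' := ⟨hξ', fun ζ hζ => by
    by_contra hcon
    exact hmin ζ (not_le.1 hcon) hζ⟩
  have key : ∃ t1 ≤ tt b t0.p hp0, ∃ Y, Bad c t1 Y := by
    by_cases h : CaseA (BB b.2 b.1) b.1 t0.p fun i n => Lv b (meets (c i n))
    · exact caseA hJ hcof hp0 hd' h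
    · exact caseB hT hJ hcof hp0 h hsuc
  obtain ⟨t1, ht1, Y, hY1, hY2⟩ := key
  have ht10 : t1 ≤ t0 := ht1.trans ⟨hb, le_rfl⟩
  obtain ⟨t2, ht2, h1⟩ := mem_fimp.1 (hc.2 Y) t1 ht10 hY1
  obtain ⟨t3, ht3, C, hC, hall⟩ := mem_fex.1 h1 t2 le_rfl
  exact hY2 C t3 (ht3.trans ht2) hC hall

end Pool.Agent.D0H61.CSClub
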