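import Mathlib
import Pool.Agent.D0H61.CSClub
import Pool.Agent.Helper539.SGIndex

/-!
# The theorem for a general cardinal
-/

namespace Pool.Agent.D0H61.CSMain

open Cardinal
open Pool.Agent.Helper539.SGIter Pool.Agent.Helper539.SGCount
open Pool.Agent.Helper539.SPForcing Pool.Agent.Helper539.SGIndex
open Pool.Agent.D0H61.CSDefs Pool.Agent.D0H61.CSStat Pool.Agent.D0H61.CSStep

universe u

/-- The theorem for a well-ordered set `K` of order type a regular uncountable cardinal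
`κ = κ^{<κ}`. -/
theorem main {K : Type u} [LinearOrder K] [Reg K] : ∃ (P : Type u) (_ : Preorder P),
    Nonempty P ∧ ∀ p : P, p ∈ IsOmegaOne P K ∧ p ∈ HasOmegaSplittingFamily P K ∧
      p ∈ fnot (HasSplittingFamily P ℕ) ∧ p ∈ fnot (HasClubSplittingSequence P K) := by
  obtain ⟨a, ⟨e⟩⟩ := Reg.nat (K := K)
  have hinf : Infinite K := Infinite.of_injective (fun n => (e n).1) fun m n h =>
    e.injective (Subtype.ext h)
  have hK : ℵ₀ ≤ #K := Cardinal.aleph0_le_mk K
  have : Nonempty K := ⟨a⟩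
  let _ : OrderBot K := WellFoundedLT.toOrderBot K
  obtain ⟨T, hT, hT'⟩ := exists_stat (K := K)
  let _ : TS K := ⟨T⟩
  obtain ⟨b, _⟩ := hcof hK ∅ (LeK.of_small (Sm.of_countable _))
  refine ⟨CSTop.TT K (JJ K), inferInstance,
    ⟨⟨b, fun _ _ _ => ∅, one K (JJ K), one_mem _ _⟩⟩, fun p => ⟨?_, ?_, ?_, ?_⟩⟩
  · exact CSUnc.omegaOne hJ (hcof hK) p
  · exact CSSplit.omega_splitting hT' hJ (hcof hK) p
  · exact Pool.Agent.Helper539.SPCnt.not_hasSplittingFamily p
  · exact CSClub.no_clubSplitting hT hJ (hcof hK) p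

end Pool.Agent.D0H61.CSMain
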